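import Pool.Agent.W71.FS.Sym

/-!
# Balanced sets of primes from free actions
-/

set_option autoImplicit false

namespace Pool.Agent.W71.FS

open NumberField IsDedekindDomain Polynomial
open Pool.Agent.Y546.WQ

section label

variable {W : Type}

/-- the action of the permutations on functions -/
def sh (σ : G3) (k : G3 → W) : G3 → W := fun g => k (σ⁻¹ * g)

theorem sh_one (k : G3 → W) : sh 1 k = k := by
  funext g
  simp [sh]

theorem sh_sh (σ τ : G3) (k : G3 → W) : sh σ (sh τ k) = sh (σ * τ) k := by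
  funext g
  simp [sh, mul_assoc]

theorem exists_label (H : Subgroup G3) (A : Set (G3 → W))
    (hst : ∀ h ∈ H, ∀ k ∈ A, sh h k ∈ A) (hfree : ∀ h ∈ H, ∀ k ∈ A, sh h k = k → h = 1) :
    ∃ lam : (G3 → W) → H, ∀ k ∈ A, ∀ h : H, lam (sh h k) = h * lam k := by
  classical
  let r : Setoid (G3 → W) :=
    { r := fun k k' => ∃ h : H, sh h k = k'
      iseqv := ⟨fun k => ⟨1, sh_one k⟩, by
        rintro k k' ⟨h, rfl⟩
        refine ⟨h⁻¹, ?_⟩
        rw [sh_sh, Subgroup.coe_inv, inv_mul_cancel, sh_one], by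
        rintro k k' k'' ⟨h, rfl⟩ ⟨h', rfl⟩
        exact ⟨h' * h, by rw [sh_sh]; rfl⟩⟩ }
  let rep : (G3 → W) → (G3 → W) := fun k => (Quotient.mk r k).out
  have hrep : ∀ k, ∃ h : H, sh h (rep k) = k := fun k =>
    Quotient.exact (Quotient.out_eq (Quotient.mk r k))
  choose lam hlam using hrep
  refine ⟨lam, fun k hk h => ?_⟩
  have h1 : rep (sh h k) = rep k := by
    show (Quotient.mk r (sh h k)).out = (Quotient.mk r k).out
    congr 1
    exact (Quotient.sound (show r.r k (sh h k) from ⟨h, rfl⟩)).symm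
  have h2 : rep k ∈ A := by
    have h3 : rep k = sh ((lam k)⁻¹ : H) k := by
      have h4 := congrArg (sh (((lam k)⁻¹ : H) : G3)) (hlam k)
      rw [sh_sh, Subgroup.coe_inv, inv_mul_cancel, sh_one] at h4
      rw [Subgroup.coe_inv]
      exact h4
    rw [h3]
    exact hst _ (SetLike.coe_mem _) k hk
  have h3 : sh (lam (sh h k)) (rep k) = sh (h * lam k : H) (rep k) := by
    have h4 := hlam (sh h k)
    rw [h1] at h4
    rw [h4, Subgroup.coe_mul, ← sh_sh, hlam k]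
  have h4 : sh (((h * lam k)⁻¹ * lam (sh h k) : H) : G3) (rep k) = rep k := by
    rw [Subgroup.coe_mul, ← sh_sh, h3, sh_sh, Subgroup.coe_inv, inv_mul_cancel, sh_one]
  have h5 := hfree _ (SetLike.coe_mem _) _ h2 h4
  have h6 : (h * lam k)⁻¹ * lam (sh h k) = 1 := by
    apply Subtype.ext
    exact h5
  exact (inv_mul_eq_one.1 h6).symm

/-- labels divide a multiset which is invariant in equal parts -/
theorem count_label (H : Subgroup G3) (A : Set (G3 → W)) [DecidablePred (· ∈ A)]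
    (hst : ∀ h ∈ H, ∀ k ∈ A, sh h k ∈ A) (lam : (G3 → W) → H)
    (hlam : ∀ k ∈ A, ∀ h : H, lam (sh h k) = h * lam k) (D : Multiset (G3 → W))
    (hD : ∀ h ∈ H, D.map (sh h) = D) (a b : H) :
    D.countP (fun k => k ∈ A ∧ lam k = a) = D.countP (fun k => k ∈ A ∧ lam k = b) := by
  classical
  have h1 := hD ((a * b⁻¹ : H) : G3) (SetLike.coe_mem _)
  conv_lhs => rw [← h1]
  rw [Multiset.countP_map, Multiset.countP_eq_card_filter]
  congr 1
  refine Multiset.filter_congr fun k _ => ?_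
  constructor
  · rintro ⟨h2, h3⟩
    have h4 : k ∈ A := by
      have h5 := hst ((a * b⁻¹ : H)⁻¹ : H) (SetLike.coe_mem _) _ h2
      rwa [sh_sh, Subgroup.coe_inv, inv_mul_cancel, sh_one] at h5
    refine ⟨h4, ?_⟩
    rw [hlam k h4] at h3
    have h5 : lam k = (a * b⁻¹)⁻¹ * a := by
      rw [eq_inv_mul_iff_mul_eq]
      exact h3
    rw [h5]
    group
  · rintro ⟨h2, h3⟩
    refine ⟨hst _ (SetLike.coe_mem _) k h2, ?_⟩
    rw [hlam k h2, h3]
    group

end label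

/-- the homogeneous form of a polynomial -/
noncomputable def hom2 {R : Type} [CommRing R] (h : ℤ[X]) (a b : R) : R :=
  ∑ i ∈ Finset.range (h.natDegree + 1), (h.coeff i : R) * a ^ i * b ^ (h.natDegree - i)

theorem map_hom2 {R L : Type} [CommRing R] [Field L] (φ : R →+* L) (h : ℤ[X]) (a b : R)
    (hb : φ b ≠ 0) : φ (hom2 h a b) = φ b ^ h.natDegree * aeval (φ a / φ b) h := by
  unfold hom2
  rw [map_sum, aeval_eq_sum_range, Finset.mul_sum]
  refine Finset.sum_congr rfl fun i hi => ?_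
  rw [Finset.mem_range] at hi
  rw [map_mul, map_mul, map_pow, map_pow, map_intCast, zsmul_eq_mul, div_pow]
  have e : φ b ^ h.natDegree = φ b ^ i * φ b ^ (h.natDegree - i) := by
    rw [← pow_add]
    congr 1
    omega
  rw [e]
  have h1 : φ b ^ i ≠ 0 := pow_ne_zero _ hb
  field_simp

/-- the annihilators of the six ratios modulo a prime ideal -/
def kk {K : Type} [Field K] [NumberField K] (x : Fin 3 → 𝓞 K) (P : Ideal (𝓞 K)) (g : G3) :
    Set ℤ[X] := {h | hom2 h (x (g 0)) (x (g 1)) ∈ P}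

section

variable {p : ℕ} [Fact p.Prime] {K N : Type} [Field K] [NumberField K] [Field N] [NumberField N]

theorem kf_eq_kk (Q : Ideal (𝓞 N)) (hQ : Q.IsPrime) (hQp : ((p : ℕ) : 𝓞 N) ∈ Q)
    {L : Type} [Field L] (ψ : 𝓞 N →+* L) (hψ : ∀ w, ψ w = 0 ↔ w ∈ Q)
    {x : Fin 3 → 𝓞 K} (hs : SolF p K x) (τ : K →+* N) :
    kf ψ x τ = kk x (Q.comap (RingOfIntegers.mapRingHom τ)) := by
  obtain ⟨h1, -⟩ := residue_facts Q hQ hQp ψ hψ hs τ
  funext g
  ext h
  show aeval _ h = 0 ↔ hom2 h (x (g 0)) (x (g 1)) ∈ Q.comap (RingOfIntegers.mapRingHom τ)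
  rw [Ideal.mem_comap, ← hψ]
  have e := map_hom2 (ψ.comp (RingOfIntegers.mapRingHom τ)) h (x (g 0)) (x (g 1)) (h1 (g 1))
  simp only [RingHom.comp_apply] at e
  rw [e, mul_eq_zero, or_iff_right (pow_ne_zero _ (h1 (g 1)))]

theorem dist_sh (hcard : Nat.card (K →+* N) = Module.finrank ℚ K)
    (hpal : PalK p K) (Q : Ideal (𝓞 N)) (hQ : Q.IsPrime) (hQp : ((p : ℕ) : 𝓞 N) ∈ Q)
    {L : Type} [Field L] [CharP L p] (ψ : 𝓞 N →+* L) (hψ : ∀ w, ψ w = 0 ↔ w ∈ Q)
    {x : Fin 3 → 𝓞 K} (hs : SolF p K x) (σ : G3) : (dist ψ x).map (sh σ) = dist ψ x := by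
  have h1 := dist_perm hcard hpal Q hQ hQp ψ hψ (σ⁻¹) hs
  rw [dist_comp] at h1
  exact h1

open Classical in
/-- sums of local degrees and the distribution -/
theorem sum_eq_count (hcard : Nat.card (K →+* N) = Module.finrank ℚ K) (hp : p.Prime)
    (Q : Ideal (𝓞 N)) (hQ : Q.IsPrime) (hQp : ((p : ℕ) : 𝓞 N) ∈ Q)
    {L : Type} [Field L] (ψ : 𝓞 N →+* L) (hψ : ∀ w, ψ w = 0 ↔ w ∈ Q)
    {x : Fin 3 → 𝓞 K} (hs : SolF p K x) (Φ : (G3 → Set ℤ[X]) → Prop) :
    ∑ P ∈ (aboveF hp K).filter (fun P => Φ (kk x P)), ldeg P = (dist ψ x).countP Φ := by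
  rw [sum_ldeg_filter hcard hp Q hQ hQp]
  unfold dist
  rw [Multiset.countP_map]
  have e : ∀ τ : K →+* N, Φ (kk x (Q.comap (RingOfIntegers.mapRingHom τ))) ↔ Φ (kf ψ x τ) := by
    intro τ
    rw [kf_eq_kk Q hQ hQp ψ hψ hs τ]
  simp_rw [e]
  rfl

open Classical in
/-- balanced sets of primes -/
theorem exists_bal (hcard : Nat.card (K →+* N) = Module.finrank ℚ K) (hp : p.Prime)
    (hpal : PalK p K) (Q : Ideal (𝓞 N)) (hQ : Q.IsPrime) (hQp : ((p : ℕ) : 𝓞 N) ∈ Q)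
    {L : Type} [Field L] [CharP L p] (ψ : 𝓞 N →+* L) (hψ : ∀ w, ψ w = 0 ↔ w ∈ Q)
    {x : Fin 3 → 𝓞 K} (hs : SolF p K x) (H : Subgroup G3) (A : Set (G3 → Set ℤ[X]))
    (hst : ∀ h ∈ H, ∀ k ∈ A, sh h k ∈ A) (hfree : ∀ h ∈ H, ∀ k ∈ A, sh h k = k → h = 1)
    {n : ℕ} (e : H ≃ Fin n) : ∃ c : Ideal (𝓞 K) → Fin n, ∀ i j : Fin n,
      ∑ P ∈ (aboveF hp K).filter (fun P => kk x P ∈ A ∧ c P = i), ldeg P =
      ∑ P ∈ (aboveF hp K).filter (fun P => kk x P ∈ A ∧ c P = j), ldeg P := by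
  obtain ⟨lam, hlam⟩ := exists_label H A hst hfree
  refine ⟨fun P => e (lam (kk x P)), fun i j => ?_⟩
  have h1 : ∀ i : Fin n,
      ∑ P ∈ (aboveF hp K).filter (fun P => kk x P ∈ A ∧ e (lam (kk x P)) = i), ldeg P =
      (dist ψ x).countP (fun k => k ∈ A ∧ lam k = e.symm i) := by
    intro i
    have h2 := sum_eq_count hcard hp Q hQ hQp ψ hψ hs (fun k => k ∈ A ∧ lam k = e.symm i)
    have h3 : (aboveF hp K).filter (fun P => kk x P ∈ A ∧ e (lam (kk x P)) = i) =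
        (aboveF hp K).filter (fun P => kk x P ∈ A ∧ lam (kk x P) = e.symm i) := by
      ext P
      simp only [Finset.mem_filter, Equiv.eq_symm_apply]
    rw [h3]
    convert h2
  rw [h1, h1]
  exact count_label H A hst lam hlam _
    (fun h _ => dist_sh hcard hpal Q hQ hQp ψ hψ hs h) _ _

open Classical in
/-- the residues of the six ratios are equally distributed -/
theorem residues_symm (hcard : Nat.card (K →+* N) = Module.finrank ℚ K) (hp : p.Prime)
    (hpal : PalK p K) (Q : Ideal (𝓞 N)) (hQ : Q.IsPrime) (hQp : ((p : ℕ) : 𝓞 N) ∈ Q)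
    {L : Type} [Field L] [CharP L p] (ψ : 𝓞 N →+* L) (hψ : ∀ w, ψ w = 0 ↔ w ∈ Q)
    {x : Fin 3 → 𝓞 K} (hs : SolF p K x) (h : ℤ[X]) (i j i' j' : Fin 3) (hij : i ≠ j)
    (hij' : i' ≠ j') :
    ∑ P ∈ (aboveF hp K).filter (fun P => hom2 h (x i) (x j) ∈ P), ldeg P =
      ∑ P ∈ (aboveF hp K).filter (fun P => hom2 h (x i') (x j') ∈ P), ldeg P := by
  obtain ⟨g, rfl, rfl⟩ : ∃ g : G3, g 0 = i ∧ g 1 = j := by
    revert i j
    decide
  obtain ⟨g', rfl, rfl⟩ : ∃ g : G3, g 0 = i' ∧ g 1 = j' := by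
    revert i' j'
    decide
  have h1 := sum_eq_count hcard hp Q hQ hQp ψ hψ hs (fun k => h ∈ k g)
  have h2 := sum_eq_count hcard hp Q hQ hQp ψ hψ hs (fun k => h ∈ k g')
  have h3 : (dist ψ x).countP (fun k => h ∈ k g) = (dist ψ x).countP (fun k => h ∈ k g') := by
    have h4 := dist_sh hcard hpal Q hQ hQp ψ hψ hs (g * g'⁻¹)
    conv_lhs => rw [← h4]
    rw [Multiset.countP_map, Multiset.countP_eq_card_filter]
    congr 1
    refine Multiset.filter_congr fun k _ => ?_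
    have e : (g * g'⁻¹)⁻¹ * g = g' := by group
    show h ∈ k ((g * g'⁻¹)⁻¹ * g) ↔ _
    rw [e]
  exact h1.trans (h3.trans h2.symm)

end

end Pool.Agent.W71.FS
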