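import Mathlib
import Pool.Agent.Y546.WQ.FldG
import Pool.Agent.Y290.WQ.NORM

/-!
# Embeddings of a number field and primes: local degrees

`N` contains all conjugates of `K`, and `Q` is a prime of `N` above the prime number `q`. For a prime
`P` of `K` above `q` the number of embeddings `τ` of `K` in `N` such that the preimage of `Q` is `P` is
the local degree `e f` of `P`.
-/

set_option autoImplicit false

namespace Pool.Agent.W71.FS

open NumberField IsDedekindDomain WithZero
open Pool.Agent.Y546.WQ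

/-- the local degree: ramification index times residue degree -/
noncomputable def ldeg {K : Type} [Field K] [NumberField K] (P : Ideal (𝓞 K)) : ℕ :=
  P.ramificationIdx ℤ * P.inertiaDeg ℤ

theorem liesOver_of_mem {R : Type} [CommRing R] {q : ℕ} (hq : q.Prime) (P : Ideal R)
    (hP : P.IsPrime) (h : (q : R) ∈ P) : P.LiesOver (Ideal.span {(q : ℤ)}) := by
  constructor
  have hmax : (Ideal.span {(q : ℤ)}).IsMaximal :=
    PrincipalIdealRing.isMaximal_of_irreducible (Nat.prime_iff_prime_int.1 hq).irreducible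
  have h1 : Ideal.span {(q : ℤ)} ≤ P.under ℤ := by
    rw [Ideal.span_singleton_le_iff_mem, Ideal.under_def, Ideal.mem_comap]
    simpa using h
  have h2 : P.under ℤ ≠ ⊤ := by
    intro h3
    apply hP.ne_top
    rw [Ideal.eq_top_iff_one] at h3 ⊢
    rw [Ideal.under_def, Ideal.mem_comap] at h3
    simpa using h3
  exact hmax.eq_of_le h2 h1

/-- the valuation of `q` is the ramification index -/
theorem val_q {K : Type} [Field K] [NumberField K] {q : ℕ} (hq : q.Prime)
    (v : HeightOneSpectrum (𝓞 K)) (h : (q : 𝓞 K) ∈ v.asIdeal) :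
    v.valuation K (q : K) = exp (-((v.asIdeal.ramificationIdx ℤ : ℕ) : ℤ)) := by
  have hov := liesOver_of_mem hq v.asIdeal v.isPrime h
  have hq0 : (q : ℤ) ≠ 0 := by exact_mod_cast hq.ne_zero
  let u : HeightOneSpectrum ℤ := ⟨Ideal.span {(q : ℤ)},
    (Ideal.span_singleton_prime hq0).2 (Nat.prime_iff_prime_int.1 hq), by
      rw [Ne, Ideal.span_singleton_eq_bot]
      exact hq0⟩
  have hov' : v.asIdeal.LiesOver u.asIdeal := hov
  have hmax : u.asIdeal.IsMaximal := u.isMaximal
  have h1 := HeightOneSpectrum.valuation_liesOver (K := ℚ) K u v (q : ℚ)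
  have h2 : u.valuation ℚ (q : ℚ) = exp (-1 : ℤ) := by
    have h3 := HeightOneSpectrum.valuation_of_algebraMap (K := ℚ) u (q : ℤ)
    rw [HeightOneSpectrum.intValuation_singleton u hq0 rfl] at h3
    simpa using h3
  rw [h2, map_natCast, Ideal.ramificationIdx'_eq_ramificationIdx u.asIdeal v.asIdeal u.ne_bot,
    ← exp_nsmul] at h1
  rw [← h1]
  congr 1
  simp

/-- valuations and embeddings -/
theorem val_emb {K N : Type} [Field K] [NumberField K] [Field N] [NumberField N] (τ : K →+* N)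
    (v : HeightOneSpectrum (𝓞 K)) (w : HeightOneSpectrum (𝓞 N))
    (h : w.asIdeal.comap (RingOfIntegers.mapRingHom τ) = v.asIdeal) :
    ∃ r : ℕ, ∀ x : K, w.valuation N (τ x) = v.valuation K x ^ r := by
  letI : Algebra K N := τ.toAlgebra
  letI : Algebra (𝓞 K) (𝓞 N) := (RingOfIntegers.mapRingHom τ).toAlgebra
  haveI : IsScalarTower (𝓞 K) (𝓞 N) N := IsScalarTower.of_algebraMap_eq fun x => rfl
  haveI : IsScalarTower (𝓞 K) K N := IsScalarTower.of_algebraMap_eq fun x => rfl
  haveI : w.asIdeal.LiesOver v.asIdeal := ⟨h.symm⟩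
  haveI : Module.IsTorsionFree (𝓞 K) (𝓞 N) := by
    rw [Module.isTorsionFree_iff_algebraMap_injective]
    exact mapRingHom_inj τ
  exact ⟨v.asIdeal.ramificationIdx' w.asIdeal, fun x =>
    (HeightOneSpectrum.valuation_liesOver (K := K) N v w x).symm⟩

/-- an element with prescribed valuations above `q` -/
theorem exists_adapted {K : Type} [Field K] [NumberField K] {q : ℕ} (hq : q.Prime)
    (v : HeightOneSpectrum (𝓞 K)) : ∃ a : 𝓞 K, a ∈ v.asIdeal ∧ a ∉ v.asIdeal ^ 2 ∧
      ∀ v' : HeightOneSpectrum (𝓞 K), (q : 𝓞 K) ∈ v'.asIdeal → v' ≠ v → a ∉ v'.asIdeal := by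
  classical
  obtain ⟨T, hT⟩ := finite_primes (K := K) q hq.ne_zero
  obtain ⟨ϖ, hϖ1, hϖ2⟩ := SetLike.exists_of_lt (Ideal.pow_right_strictAnti v.asIdeal v.ne_bot
    v.isPrime.ne_top (show 1 < 2 by norm_num))
  replace hϖ1 : ϖ ∈ v.asIdeal := by simpa using hϖ1
  replace hϖ2 : ϖ ∉ v.asIdeal ^ 2 := hϖ2
  obtain ⟨a, ha⟩ := IsDedekindDomain.exists_forall_sub_mem_ideal (s := insert v T)
    (fun u : HeightOneSpectrum (𝓞 K) => u.asIdeal) (fun u => if u = v then 2 else 1)
    (fun u _ => u.prime) (fun u _ u' _ huu h => huu (HeightOneSpectrum.ext h))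
    (fun u => if (u : HeightOneSpectrum (𝓞 K)) = v then ϖ else 1)
  have h1 := ha v (Finset.mem_insert_self v T)
  simp only [if_true] at h1
  refine ⟨a, ?_, ?_, ?_⟩
  · have h2 := Ideal.pow_le_self two_ne_zero h1
    have h3 := v.asIdeal.add_mem h2 hϖ1
    rwa [sub_add_cancel] at h3
  · intro h2
    apply hϖ2
    have h3 := (v.asIdeal ^ 2).sub_mem h2 h1
    rwa [sub_sub_cancel] at h3
  · intro v' hv' hne h2
    have h3 := ha v' (Finset.mem_insert_of_mem (hT v' hv'))
    simp only [if_neg hne, pow_one] at h3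
    apply v'.isPrime.ne_top
    rw [Ideal.eq_top_iff_one]
    have h4 := v'.asIdeal.sub_mem h2 h3
    rwa [sub_sub_cancel] at h4

theorem val_adapted {K : Type} [Field K] [NumberField K] (v : HeightOneSpectrum (𝓞 K)) (a : 𝓞 K)
    (h1 : a ∈ v.asIdeal) (h2 : a ∉ v.asIdeal ^ 2) : v.valuation K (a : K) = exp (-1 : ℤ) := by
  have e : v.valuation K (a : K) = v.intValuation a :=
    HeightOneSpectrum.valuation_of_algebraMap (K := K) v a
  have h3 : v.intValuation a ≤ exp (-((1 : ℕ) : ℤ)) :=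
    (v.intValuation_le_pow_iff_mem a 1).2 (by rwa [pow_one])
  have h4 : ¬ v.intValuation a ≤ exp (-((2 : ℕ) : ℤ)) := fun h =>
    h2 ((v.intValuation_le_pow_iff_mem a 2).1 h)
  rw [e]
  have ha : a ≠ 0 := by
    rintro rfl
    exact h2 (zero_mem _)
  have h0 : v.intValuation a ≠ 0 := by
    rw [v.intValuation_if_neg ha]
    exact exp_ne_zero
  obtain ⟨k, hk⟩ : ∃ k : ℤ, v.intValuation a = exp k := ⟨_, v.intValuation_if_neg ha⟩
  rw [hk, exp_le_exp] at h3 h4
  rw [hk]
  congr 1
  push_cast at h3 h4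
  omega

/-- the number of embeddings for which the preimage of `Q` is `P` is at least the local degree -/
theorem ldeg_le {K N : Type} [Field K] [NumberField K] [Field N] [NumberField N]
    (hcard : Nat.card (K →+* N) = Module.finrank ℚ K) {q : ℕ} (hq : q.Prime)
    (Q : Ideal (𝓞 N)) (hQ : Q.IsPrime) (hqQ : (q : 𝓞 N) ∈ Q) (P : Ideal (𝓞 K)) (hP : P.IsPrime)
    (hqP : (q : 𝓞 K) ∈ P) :
    ldeg P ≤ Nat.card {τ : K →+* N // Q.comap (RingOfIntegers.mapRingHom τ) = P} := by
  classical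
  have hQ0 : Q ≠ ⊥ := by
    rintro rfl
    rw [Ideal.mem_bot, Nat.cast_eq_zero] at hqQ
    exact hq.ne_zero hqQ
  have hP0 : P ≠ ⊥ := by
    rintro rfl
    rw [Ideal.mem_bot, Nat.cast_eq_zero] at hqP
    exact hq.ne_zero hqP
  let w : HeightOneSpectrum (𝓞 N) := ⟨Q, hQ, hQ0⟩
  let v : HeightOneSpectrum (𝓞 K) := ⟨P, hP, hP0⟩
  have hE : w.valuation N (q : N) = exp (-((Q.ramificationIdx ℤ : ℕ) : ℤ)) := val_q hq w hqQ
  have he : v.valuation K (q : K) = exp (-((P.ramificationIdx ℤ : ℕ) : ℤ)) := val_q hq v hqP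
  have hEpos : 0 < Q.ramificationIdx ℤ := Q.ramificationIdx_pos ℤ
  set E := Q.ramificationIdx ℤ with hEd
  set e := P.ramificationIdx ℤ with hed
  set n := Nat.card {τ : K →+* N // Q.comap (RingOfIntegers.mapRingHom τ) = P} with hn
  obtain ⟨a, ha1, ha2, ha3⟩ := exists_adapted hq v
  have hva := val_adapted v a ha1 ha2
  -- the norm of `a`
  obtain ⟨f, -, hf0, -, -, hf⟩ := Pool.Agent.Y290.WQ.mainNORM K a 0
  have hf := hf N hcard
  have e1 := eval_f hf (0 : 𝓞 N)
  simp only [zero_mul, add_zero] at e1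
  have e2 : Polynomial.aeval (0 : 𝓞 N) f = ((f.coeff 0 : ℤ) : 𝓞 N) := by
    rw [Polynomial.aeval_def, Polynomial.eval₂_at_zero]
    rfl
  rw [e2, hf0] at e1
  have e3 : ((Algebra.norm ℤ a : ℤ) : N) = ∏ τ : K →+* N, τ (a : K) := by
    have h := congrArg (fun z : 𝓞 N => (z : N)) e1
    simp only [map_intCast, map_prod] at h
    rw [h]
    rfl
  -- divisibility of the norm
  have hov := liesOver_of_mem hq P hP hqP
  have hdvd : ((q ^ P.inertiaDeg ℤ : ℕ) : ℤ) ∣ Algebra.norm ℤ a := by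
    rw [Ideal.pow_inertiaDeg q P]
    exact Ideal.absNorm_dvd_norm_of_mem ha1
  obtain ⟨c, hc⟩ := hdvd
  have h1 : w.valuation N ((Algebra.norm ℤ a : ℤ) : N) ≤ exp (-(E : ℤ)) ^ P.inertiaDeg ℤ := by
    rw [hc]
    push_cast
    rw [map_mul, map_pow, hE]
    calc _ ≤ exp (-(E : ℤ)) ^ P.inertiaDeg ℤ * 1 := by
          gcongr
          have := w.valuation_le_one (K := N) ((c : ℤ) : 𝓞 N)
          simpa using this
      _ = _ := mul_one _
  -- the factors
  have h2 : ∀ τ : K →+* N, w.valuation N (τ (a : K)) ^ e =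
      if Q.comap (RingOfIntegers.mapRingHom τ) = P then exp (-(E : ℤ)) else 1 := by
    intro τ
    have hτq : (q : 𝓞 K) ∈ Q.comap (RingOfIntegers.mapRingHom τ) := by
      rw [Ideal.mem_comap, map_natCast]
      exact hqQ
    split_ifs with hτ
    · obtain ⟨r, hr⟩ := val_emb τ v w hτ
      have h3 := hr (q : K)
      rw [map_natCast, hE, he, ← exp_nsmul, exp_inj] at h3
      rw [hr, hva, ← pow_mul, ← exp_nsmul]
      congr 1
      simp only [nsmul_eq_mul] at h3 ⊢
      push_cast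
      linear_combination -h3
    · have h0 : Q.comap (RingOfIntegers.mapRingHom τ) ≠ ⊥ := by
        intro h0
        rw [h0, Ideal.mem_bot, Nat.cast_eq_zero] at hτq
        exact hq.ne_zero hτq
      let v' : HeightOneSpectrum (𝓞 K) := ⟨Q.comap (RingOfIntegers.mapRingHom τ), hQ.comap _, h0⟩
      obtain ⟨r, hr⟩ := val_emb τ v' w rfl
      have h3 : a ∉ v'.asIdeal := ha3 v' hτq (by
        intro h
        exact hτ (congrArg HeightOneSpectrum.asIdeal h))
      rw [hr, val_one v' a h3, one_pow, one_pow]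
  have h3 : w.valuation N ((Algebra.norm ℤ a : ℤ) : N) ^ e = exp (-(E : ℤ)) ^ n := by
    rw [e3, map_prod, ← Finset.prod_pow, Finset.prod_congr rfl fun τ _ => h2 τ, Finset.prod_ite,
      Finset.prod_const_one, mul_one, Finset.prod_const, hn, Nat.card_eq_fintype_card,
      Fintype.card_subtype]
  have h4 : exp (-(E : ℤ)) ^ n ≤ (exp (-(E : ℤ)) ^ P.inertiaDeg ℤ) ^ e := by
    rw [← h3]
    gcongr
  rw [← pow_mul, ← exp_nsmul, ← exp_nsmul, exp_le_exp] at h4
  simp only [nsmul_eq_mul] at h4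
  unfold ldeg
  rw [mul_comm]
  have h5 : (0 : ℤ) < E := by exact_mod_cast hEpos
  have h6 : ((P.inertiaDeg ℤ * e : ℕ) : ℤ) ≤ (n : ℤ) := by
    nlinarith
  exact_mod_cast h6

/-- the primes above `q` -/
def above (q : ℕ) (K : Type) [Field K] [NumberField K] : Set (Ideal (𝓞 K)) :=
  {P | P.IsPrime ∧ (q : 𝓞 K) ∈ P}

theorem above_eq {q : ℕ} (hq : q.Prime) (K : Type) [Field K] [NumberField K] :
    above q K = (Ideal.span {(q : ℤ)}).primesOver (𝓞 K) := by
  ext P
  constructor
  · rintro ⟨h1, h2⟩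
    exact ⟨h1, liesOver_of_mem hq P h1 h2⟩
  · rintro ⟨h1, h2⟩
    refine ⟨h1, ?_⟩
    have h3 : (q : ℤ) ∈ P.under ℤ := by
      rw [← h2.over]
      exact Ideal.mem_span_singleton_self _
    rw [Ideal.under_def, Ideal.mem_comap] at h3
    simpa using h3

theorem above_finite {q : ℕ} (hq : q.Prime) (K : Type) [Field K] [NumberField K] :
    (above q K).Finite := by
  obtain ⟨T, hT⟩ := finite_primes (K := K) q hq.ne_zero
  refine (T.finite_toSet.image HeightOneSpectrum.asIdeal).subset ?_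
  rintro P ⟨h1, h2⟩
  have h0 : P ≠ ⊥ := by
    rintro rfl
    rw [Ideal.mem_bot, Nat.cast_eq_zero] at h2
    exact hq.ne_zero h2
  exact ⟨⟨P, h1, h0⟩, hT _ h2, rfl⟩

/-- the finite set of primes above `q` -/
noncomputable def aboveF {q : ℕ} (hq : q.Prime) (K : Type) [Field K] [NumberField K] :
    Finset (Ideal (𝓞 K)) := (above_finite hq K).toFinset

theorem mem_aboveF {q : ℕ} (hq : q.Prime) {K : Type} [Field K] [NumberField K]
    {P : Ideal (𝓞 K)} : P ∈ aboveF hq K ↔ P.IsPrime ∧ (q : 𝓞 K) ∈ P := by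
  unfold aboveF
  rw [Set.Finite.mem_toFinset]
  rfl

theorem sum_ldeg {q : ℕ} (hq : q.Prime) (K : Type) [Field K] [NumberField K] :
    ∑ P ∈ aboveF hq K, ldeg P = Module.finrank ℚ K := by
  classical
  have hq0 : (q : ℤ) ≠ 0 := by exact_mod_cast hq.ne_zero
  haveI : (Ideal.span {(q : ℤ)}).IsPrime :=
    (Ideal.span_singleton_prime hq0).2 (Nat.prime_iff_prime_int.1 hq)
  haveI : Fintype ((Ideal.span {(q : ℤ)}).primesOver (𝓞 K)) :=
    Set.Finite.fintype (by rw [← above_eq hq K]; exact above_finite hq K)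
  rw [← RingOfIntegers.rank K, ← Ideal.sum_ramification_inertia_eq_finrank
    (Ideal.span {(q : ℤ)}) (𝓞 K)]
  rw [← Finset.sum_coe_sort]
  refine Fintype.sum_equiv (Equiv.subtypeEquivRight fun P => ?_) _ _ fun P => rfl
  rw [mem_aboveF, ← above_eq hq K]
  rfl

/-- the number of embeddings for which the preimage of `Q` is `P` is the local degree -/
theorem card_emb {K N : Type} [Field K] [NumberField K] [Field N] [NumberField N]
    (hcard : Nat.card (K →+* N) = Module.finrank ℚ K) {q : ℕ} (hq : q.Prime)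
    (Q : Ideal (𝓞 N)) (hQ : Q.IsPrime) (hqQ : (q : 𝓞 N) ∈ Q) (P : Ideal (𝓞 K)) (hP : P.IsPrime)
    (hqP : (q : 𝓞 K) ∈ P) :
    Nat.card {τ : K →+* N // Q.comap (RingOfIntegers.mapRingHom τ) = P} = ldeg P := by
  classical
  have h1 : ∀ P' ∈ aboveF hq K, ldeg P' ≤
      Nat.card {τ : K →+* N // Q.comap (RingOfIntegers.mapRingHom τ) = P'} := by
    intro P' hP'
    rw [mem_aboveF] at hP'
    exact ldeg_le hcard hq Q hQ hqQ P' hP'.1 hP'.2
  have h2 : ∑ P' ∈ aboveF hq K,
      Nat.card {τ : K →+* N // Q.comap (RingOfIntegers.mapRingHom τ) = P'} =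
      Module.finrank ℚ K := by
    rw [← hcard, Nat.card_eq_fintype_card, ← Finset.card_univ]
    rw [Finset.card_eq_sum_card_fiberwise (t := aboveF hq K)
      (f := fun τ : K →+* N => Q.comap (RingOfIntegers.mapRingHom τ))]
    · refine Finset.sum_congr rfl fun P' _ => ?_
      rw [Nat.card_eq_fintype_card, Fintype.card_subtype]
    · intro τ _
      rw [Finset.mem_coe, mem_aboveF]
      refine ⟨hQ.comap _, ?_⟩
      rw [Ideal.mem_comap, map_natCast]
      exact hqQ
  have h3 := (Finset.sum_eq_sum_iff_of_le h1).1 ((sum_ldeg hq K).trans h2.symm) P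
    (by rw [mem_aboveF]; exact ⟨hP, hqP⟩)
  exact h3.symm

/-- counting embeddings and summing local degrees -/
theorem sum_ldeg_filter {K N : Type} [Field K] [NumberField K] [Field N] [NumberField N]
    (hcard : Nat.card (K →+* N) = Module.finrank ℚ K) {q : ℕ} (hq : q.Prime)
    (Q : Ideal (𝓞 N)) (hQ : Q.IsPrime) (hqQ : (q : 𝓞 N) ∈ Q) (Φ : Ideal (𝓞 K) → Prop)
    [DecidablePred Φ] :
    ∑ P ∈ (aboveF hq K).filter Φ, ldeg P = (Finset.univ.filter fun τ : K →+* N =>
      Φ (Q.comap (RingOfIntegers.mapRingHom τ))).card := by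
  classical
  rw [Finset.card_eq_sum_card_fiberwise (t := (aboveF hq K).filter Φ)
      (f := fun τ : K →+* N => Q.comap (RingOfIntegers.mapRingHom τ))]
  · refine Finset.sum_congr rfl fun P hP => ?_
    rw [Finset.mem_filter, mem_aboveF] at hP
    rw [← card_emb hcard hq Q hQ hqQ P hP.1.1 hP.1.2, Nat.card_eq_fintype_card,
      Fintype.card_subtype, Finset.filter_filter]
    congr 1
    ext τ
    simp only [Finset.mem_filter, Finset.mem_univ, true_and]
    constructor
    · intro h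
      exact ⟨h ▸ hP.2, h⟩
    · exact fun h => h.2
  · intro τ hτ
    rw [Finset.mem_coe, Finset.mem_filter] at hτ
    rw [Finset.mem_coe, Finset.mem_filter, mem_aboveF]
    refine ⟨⟨hQ.comap _, ?_⟩, hτ.2⟩
    rw [Ideal.mem_comap, map_natCast]
    exact hqQ

end Pool.Agent.W71.FS
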