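import Pool.Agent.W71.FS.MainTwo

/-!
# The final form
-/

set_option autoImplicit false

namespace Pool.Agent.W71.FS

open NumberField IsDedekindDomain Polynomial
open Pool.Agent.Y546.WQ

/-- scaling a solution in the first case, with the factor -/
theorem prep' {K : Type} [Field K] [NumberField K] {p : ℕ} (hp : p.Prime) {x y z : K}
    (hx : x ≠ 0) (hy : y ≠ 0) (hz : z ≠ 0) (h : x ^ p + y ^ p + z ^ p = 0)
    (hv : ∀ v : HeightOneSpectrum (𝓞 K), ((p : ℕ) : 𝓞 K) ∈ v.asIdeal →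
      v.valuation K x = v.valuation K y ∧ v.valuation K y = v.valuation K z) :
    ∃ (a : K) (X Y Z : 𝓞 K), a ≠ 0 ∧ algebraMap (𝓞 K) K X = a * x ∧
      algebraMap (𝓞 K) K Y = a * y ∧ algebraMap (𝓞 K) K Z = a * z ∧
      Sol p K X Y Z ∧
      (∀ P : Ideal (𝓞 K), P.IsPrime → (2 : 𝓞 K) ∈ P → ¬ (X ∈ P ∧ Y ∈ P ∧ Z ∈ P)) := by
  have hp0 : p ≠ 0 := hp.ne_zero
  obtain ⟨T, hT⟩ := finite_primes (K := K) (2 * p) (by positivity)
  obtain ⟨a, X, Y, Z, hXa, hYa, hZa, hn⟩ := scaleT (y := y) (z := z) hx T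
  have hne : ∀ (P : Ideal (𝓞 K)), P.IsPrime → ((2 * p : ℕ) : 𝓞 K) ∈ P →
      ∃ h0 : P ≠ ⊥, ∀ hP : P.IsPrime, (⟨P, hP, h0⟩ : HeightOneSpectrum (𝓞 K)) ∈ T := by
    intro P hP hm
    have h0 : P ≠ ⊥ := by
      rintro rfl
      rw [Ideal.mem_bot] at hm
      have : (2 * p : ℕ) = 0 := by exact_mod_cast hm
      omega
    exact ⟨h0, fun hP' => hT _ hm⟩
  obtain ⟨M, hM, hMp⟩ := exists_above (K := K) p hp
  have hmem2p : ∀ P : Ideal (𝓞 K), ((p : ℕ) : 𝓞 K) ∈ P → ((2 * p : ℕ) : 𝓞 K) ∈ P := by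
    intro P hP
    rw [Nat.cast_mul]
    exact P.mul_mem_left _ hP
  have ha : a ≠ 0 := by
    rintro rfl
    rw [zero_mul] at hXa hYa hZa
    have h1 : X = 0 := RingOfIntegers.coe_injective (by rw [map_zero]; exact hXa)
    have h2 : Y = 0 := RingOfIntegers.coe_injective (by rw [map_zero]; exact hYa)
    have h3 : Z = 0 := RingOfIntegers.coe_injective (by rw [map_zero]; exact hZa)
    obtain ⟨h0, h4⟩ := hne M hM (hmem2p M hMp)
    apply hn _ (h4 hM)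
    rw [h1, h2, h3]
    exact ⟨zero_mem _, zero_mem _, zero_mem _⟩
  have hX0 : X ≠ 0 := by
    rintro rfl
    rw [map_zero] at hXa
    exact mul_ne_zero ha hx hXa.symm
  have hY0 : Y ≠ 0 := by
    rintro rfl
    rw [map_zero] at hYa
    exact mul_ne_zero ha hy hYa.symm
  have hZ0 : Z ≠ 0 := by
    rintro rfl
    rw [map_zero] at hZa
    exact mul_ne_zero ha hz hZa.symm
  have hXYZ : X ^ p + Y ^ p + Z ^ p = 0 := by
    apply RingOfIntegers.coe_injective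
    rw [map_zero, map_add, map_add, map_pow, map_pow, map_pow]
    have e : a ^ p * (x ^ p + y ^ p + z ^ p) = 0 := by rw [h, mul_zero]
    rw [hXa, hYa, hZa, mul_pow, mul_pow, mul_pow]
    linear_combination e
  refine ⟨a, X, Y, Z, ha, hXa, hYa, hZa, ⟨hX0, hY0, hZ0, hXYZ, ?_⟩, ?_⟩
  · intro P hP hpP
    obtain ⟨h0, h4⟩ := hne P hP (hmem2p P hpP)
    have h5 := hn _ (h4 hP)
    obtain ⟨h1, h2⟩ := hv ⟨P, hP, h0⟩ hpP
    have e : ∀ (w : K) (W : 𝓞 K), algebraMap (𝓞 K) K W = a * w →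
        (W ∈ P ↔ (⟨P, hP, h0⟩ : HeightOneSpectrum (𝓞 K)).valuation K a *
          (⟨P, hP, h0⟩ : HeightOneSpectrum (𝓞 K)).valuation K w < 1) := by
      intro w W hW
      rw [← map_mul, ← hW]
      exact ((⟨P, hP, h0⟩ : HeightOneSpectrum (𝓞 K)).valuation_lt_one_iff_mem (K := K) W).symm
    have e1 : X ∈ P ↔ Y ∈ P := by rw [e x X hXa, e y Y hYa, h1]
    have e2 : Y ∈ P ↔ Z ∈ P := by rw [e y Y hYa, e z Z hZa, h2]
    change ¬ (X ∈ P ∧ Y ∈ P ∧ Z ∈ P) at h5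
    tauto
  · intro P hP h2P
    have h3 : ((2 * p : ℕ) : 𝓞 K) ∈ P := by
      rw [Nat.cast_mul]
      apply P.mul_mem_right
      exact_mod_cast h2P
    obtain ⟨h0, h4⟩ := hne P hP h3
    exact hn _ (h4 hP)

section

variable {K : Type} [Field K] [NumberField K]

/-- the primes above `q` -/
def Ab (q : ℕ) (K : Type) [Field K] [NumberField K] : Set (HeightOneSpectrum (𝓞 K)) :=
  {v | ((q : ℕ) : 𝓞 K) ∈ v.asIdeal}

theorem finsum_conv {q : ℕ} (hq : q.Prime) (Φ : Ideal (𝓞 K) → Prop) :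
    ∑ᶠ P ∈ {P | P ∈ above q K ∧ Φ P}, ldeg P =
      ∑ᶠ v ∈ {v | v ∈ Ab q K ∧ Φ v.asIdeal}, ldeg v.asIdeal := by
  have e : {P : Ideal (𝓞 K) | P ∈ above q K ∧ Φ P} =
      HeightOneSpectrum.asIdeal '' {v | v ∈ Ab q K ∧ Φ v.asIdeal} := by
    ext P
    constructor
    · rintro ⟨⟨h1, h2⟩, h3⟩
      have h0 : P ≠ ⊥ := by
        rintro rfl
        rw [Ideal.mem_bot, Nat.cast_eq_zero] at h2
        exact hq.ne_zero h2
      exact ⟨⟨P, h1, h0⟩, ⟨h2, h3⟩, rfl⟩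
    · rintro ⟨v, ⟨h1, h2⟩, rfl⟩
      exact ⟨⟨v.isPrime, h1⟩, h2⟩
  rw [e, finsum_mem_image]
  intro v _ v' _ h
  exact HeightOneSpectrum.ext h

/-- a set of primes which can be divided in `n` parts with the same sum of local degrees -/
def BalV (n : ℕ) (A : Set (HeightOneSpectrum (𝓞 K))) : Prop :=
  ∃ c : HeightOneSpectrum (𝓞 K) → Fin n, ∀ i j : Fin n,
    ∑ᶠ v ∈ {v | v ∈ A ∧ c v = i}, ldeg v.asIdeal = ∑ᶠ v ∈ {v | v ∈ A ∧ c v = j}, ldeg v.asIdeal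

theorem balV_of {q : ℕ} (hq : q.Prime) {n : ℕ} (Φ : Ideal (𝓞 K) → Prop)
    (h : Bal n {P : Ideal (𝓞 K) | P ∈ above q K ∧ Φ P}) :
    BalV n {v : HeightOneSpectrum (𝓞 K) | v ∈ Ab q K ∧ Φ v.asIdeal} := by
  obtain ⟨c, hc⟩ := h
  refine ⟨fun v => c v.asIdeal, fun i j => ?_⟩
  have key : ∀ i : Fin n, ∑ᶠ v ∈ {v : HeightOneSpectrum (𝓞 K) |
      v ∈ {v : HeightOneSpectrum (𝓞 K) | v ∈ Ab q K ∧ Φ v.asIdeal} ∧ c v.asIdeal = i},
      ldeg v.asIdeal =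
      ∑ᶠ P ∈ {P | P ∈ {P : Ideal (𝓞 K) | P ∈ above q K ∧ Φ P} ∧ c P = i}, ldeg P := by
    intro i
    have h1 := finsum_conv (K := K) hq (fun P => Φ P ∧ c P = i)
    have e1 : {v : HeightOneSpectrum (𝓞 K) |
        v ∈ {v : HeightOneSpectrum (𝓞 K) | v ∈ Ab q K ∧ Φ v.asIdeal} ∧ c v.asIdeal = i} =
        {v | v ∈ Ab q K ∧ Φ v.asIdeal ∧ c v.asIdeal = i} := by
      ext v
      exact and_assoc
    have e2 : {P | P ∈ {P : Ideal (𝓞 K) | P ∈ above q K ∧ Φ P} ∧ c P = i} =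
        {P : Ideal (𝓞 K) | P ∈ above q K ∧ Φ P ∧ c P = i} := by
      ext v
      exact and_assoc
    rw [e1, e2]
    exact h1.symm
  rw [key, key]
  exact hc i j

theorem ab_finite {q : ℕ} (hq : q.Prime) (K : Type) [Field K] [NumberField K] :
    (Ab q K).Finite := by
  obtain ⟨T, hT⟩ := finite_primes (K := K) q hq.ne_zero
  exact T.finite_toSet.subset fun v hv => hT v hv

theorem ldeg_pos {q : ℕ} (hq : q.Prime) {v : HeightOneSpectrum (𝓞 K)} (hv : v ∈ Ab q K) :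
    0 < ldeg v.asIdeal := by
  have hov := liesOver_of_mem hq v.asIdeal v.isPrime hv
  have := v.isPrime
  exact Nat.mul_pos (v.asIdeal.ramificationIdx_pos ℤ) (v.asIdeal.inertiaDeg_pos ℤ)

/-- a nonempty balanced set contains two disjoint nonempty sets with the same sum of degrees -/
theorem two_sets {q : ℕ} (hq : q.Prime) {n : ℕ} (hn : 2 ≤ n)
    {A : Set (HeightOneSpectrum (𝓞 K))} (hA : A ⊆ Ab q K) (hne : A.Nonempty) (h : BalV n A) :
    ∃ B C : Set (HeightOneSpectrum (𝓞 K)), B ⊆ A ∧ C ⊆ A ∧ B.Nonempty ∧ C.Nonempty ∧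
      Disjoint B C ∧ ∑ᶠ v ∈ B, ldeg v.asIdeal = ∑ᶠ v ∈ C, ldeg v.asIdeal := by
  obtain ⟨c, hc⟩ := h
  obtain ⟨v0, hv0⟩ := hne
  have hfin : ∀ i : Fin n, {v | v ∈ A ∧ c v = i}.Finite := fun i =>
    (ab_finite hq K).subset fun v hv => hA hv.1
  have hpos : 0 < ∑ᶠ v ∈ {v | v ∈ A ∧ c v = c v0}, ldeg v.asIdeal := by
    rw [finsum_mem_eq_finite_toFinset_sum _ (hfin _)]
    refine Finset.sum_pos (fun v hv => ?_) ⟨v0, ?_⟩
    · rw [Set.Finite.mem_toFinset] at hv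
      exact ldeg_pos hq (hA hv.1)
    · rw [Set.Finite.mem_toFinset]
      exact ⟨hv0, rfl⟩
  have hne' : ∀ i : Fin n, {v | v ∈ A ∧ c v = i}.Nonempty := by
    intro i
    by_contra hemp
    rw [Set.not_nonempty_iff_eq_empty] at hemp
    have h1 := hc i (c v0)
    rw [hemp, finsum_mem_empty] at h1
    omega
  let i0 : Fin n := ⟨0, by omega⟩
  let i1 : Fin n := ⟨1, by omega⟩
  have h01 : i0 ≠ i1 := by
    intro h
    have := congrArg Fin.val h
    simp [i0, i1] at this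
  refine ⟨{v | v ∈ A ∧ c v = i0}, {v | v ∈ A ∧ c v = i1}, fun v hv => hv.1, fun v hv => hv.1,
    hne' _, hne' _, ?_, hc _ _⟩
  rw [Set.disjoint_left]
  rintro v ⟨-, h1⟩ ⟨-, h2⟩
  exact h01 (h1.symm.trans h2)

/-- the sum over a balanced set is divisible by the number of parts -/
theorem dvd_sum {q : ℕ} (hq : q.Prime) {n : ℕ}
    {A : Set (HeightOneSpectrum (𝓞 K))} (hA : A ⊆ Ab q K) (h : BalV n A) :
    n ∣ ∑ᶠ v ∈ A, ldeg v.asIdeal := by
  classical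
  obtain ⟨c, hc⟩ := h
  have hAf : A.Finite := (ab_finite hq K).subset hA
  rcases Nat.eq_zero_or_pos n with h0 | h0
  · subst h0
    have hemp : A = ∅ := by
      rw [Set.eq_empty_iff_forall_notMem]
      intro v _
      exact (c v).elim0
    rw [hemp, finsum_mem_empty]
  rw [finsum_mem_eq_finite_toFinset_sum _ hAf,
    ← Finset.sum_fiberwise_of_maps_to (t := (Finset.univ : Finset (Fin n))) (g := c)
      (fun v _ => Finset.mem_univ _)]
  have h1 : ∀ i : Fin n, ∑ v ∈ hAf.toFinset.filter (fun v => c v = i), ldeg v.asIdeal =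
      ∑ᶠ v ∈ {v | v ∈ A ∧ c v = ⟨0, h0⟩}, ldeg v.asIdeal := by
    intro i
    rw [hc ⟨0, h0⟩ i]
    have e : {v | v ∈ A ∧ c v = i} =
        ((hAf.toFinset.filter (fun v => c v = i) : Finset (HeightOneSpectrum (𝓞 K))) :
          Set (HeightOneSpectrum (𝓞 K))) := by
      ext v
      simp
    rw [e, finsum_mem_coe_finset]
  rw [Finset.sum_congr rfl fun i _ => h1 i, Finset.sum_const, Finset.card_univ, Fintype.card_fin,
    smul_eq_mul]
  exact dvd_mul_right _ _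

end

end Pool.Agent.W71.FS
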