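import Pool.Agent.W71.FS.Bal

/-!
# Frobenius and the stabilizers of the residues
-/

set_option autoImplicit false

namespace Pool.Agent.W71.FS

open NumberField IsDedekindDomain Polynomial
open Pool.Agent.Y546.WQ

section

variable {p : ℕ} [Fact p.Prime] {L : Type} [Field L] [CharP L p]

theorem aeval_pow_char (h : ℤ[X]) (u : L) (j : ℕ) :
    aeval (u ^ p ^ j) h = (aeval u h) ^ p ^ j := by
  have h1 : (iterateFrobenius L p j).comp (algebraMap ℤ L) = algebraMap ℤ L := RingHom.ext_int _ _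
  rw [aeval_def, aeval_def, ← iterateFrobenius_def, ← iterateFrobenius_def, hom_eval₂, h1]

theorem ann_pow_char (u : L) (j : ℕ) : ann (u ^ p ^ j) = ann u := by
  have hpp : p.Prime := Fact.out
  ext h
  show aeval (u ^ p ^ j) h = 0 ↔ aeval u h = 0
  rw [aeval_pow_char, pow_eq_zero_iff (pow_ne_zero _ hpp.ne_zero)]

/-- elements of a finite field with the same annihilator are conjugate -/
theorem exists_frob [Finite L] {u u' : L} (h : ann u = ann u') : ∃ j : ℕ, u ^ p ^ j = u' := by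
  have hpp : p.Prime := Fact.out
  letI : Algebra (ZMod p) L := ZMod.algebra L p
  haveI : Module.Finite (ZMod p) L := Module.Finite.of_finite
  have hint : IsIntegral (ZMod p) u := Algebra.IsIntegral.isIntegral u
  have h1 : IsConjRoot (ZMod p) u u' := by
    apply isConjRoot_of_aeval_eq_zero hint
    obtain ⟨g, hg⟩ := Polynomial.map_surjective (Int.castRingHom (ZMod p))
      ZMod.intCast_surjective (minpoly (ZMod p) u)
    have e : ∀ w : L, aeval w (minpoly (ZMod p) u) = aeval w g := by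
      intro w
      rw [← hg, aeval_def, aeval_def, eval₂_map]
      congr 1
      exact RingHom.ext_int _ _
    rw [e]
    have h2 : g ∈ ann u := by
      show aeval u g = 0
      rw [← e]
      exact minpoly.aeval _ _
    rw [h] at h2
    exact h2
  obtain ⟨σ, hσ⟩ := h1.exists_algEquiv
  obtain ⟨n, hn⟩ := (FiniteField.bijective_frobeniusAlgEquivOfAlgebraic_pow (ZMod p) L).2 σ.symm
  refine ⟨n, ?_⟩
  have h3 : σ.symm u = u' := by
    rw [← hσ]
    exact σ.symm_apply_apply u'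
  rw [← h3, ← hn, AlgEquiv.coe_pow, FiniteField.coe_frobeniusAlgEquivOfAlgebraic_iterate,
    ZMod.card]

/-- the annihilators of the ratios of `t` -/
def kt (t : Fin 3 → L) (g : G3) : Set ℤ[X] := ann (t (g 0) / t (g 1))

/-- a power of Frobenius acts on `t` as a permutation, up to a factor -/
def R (p j : ℕ) (t : Fin 3 → L) (σ : G3) : Prop := ∃ c : L, c ≠ 0 ∧ ∀ i, t i ^ p ^ j = c * t (σ i)

/-- a permutation fixes `t` up to a factor -/
def Fx (t : Fin 3 → L) (w : G3) : Prop := ∃ c : L, c ≠ 0 ∧ ∀ i, t (w i) = c * t i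

variable {t : Fin 3 → L}

theorem sum_perm (hsum : t 0 + t 1 + t 2 = 0) (σ : G3) : t (σ 0) + t (σ 1) + t (σ 2) = 0 := by
  rw [← Fin.sum_univ_three (fun i => t (σ i)), Equiv.sum_comp σ t, Fin.sum_univ_three]
  exact hsum

theorem R_of_ratio (h0 : ∀ i, t i ≠ 0) (hsum : t 0 + t 1 + t 2 = 0) (j : ℕ) (σ : G3)
    (h : (t 0 / t 1) ^ p ^ j = t (σ 0) / t (σ 1)) : R p j t σ := by
  have h1 : t (σ 1) ≠ 0 := h0 _
  have h2 : t 1 ^ p ^ j ≠ 0 := pow_ne_zero _ (h0 1)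
  rw [div_pow, div_eq_div_iff h2 h1] at h
  have e0 : t 0 ^ p ^ j = t 1 ^ p ^ j / t (σ 1) * t (σ 0) := by
    field_simp
    linear_combination h
  have e1 : t 1 ^ p ^ j = t 1 ^ p ^ j / t (σ 1) * t (σ 1) := by
    field_simp
  refine ⟨t 1 ^ p ^ j / t (σ 1), div_ne_zero h2 h1, ?_⟩
  intro i
  fin_cases i
  · exact e0
  · exact e1
  · show t 2 ^ p ^ j = t 1 ^ p ^ j / t (σ 1) * t (σ 2)
    have h3 : t 2 = -(t 0 + t 1) := by linear_combination hsum
    have h4 : t 2 ^ p ^ j = -(t 0 ^ p ^ j + t 1 ^ p ^ j) := by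
      have hadd : (t 0 + t 1 + t 2) ^ p ^ j = t 0 ^ p ^ j + t 1 ^ p ^ j + t 2 ^ p ^ j := by
        rw [add_pow_char_pow, add_pow_char_pow]
      rw [hsum, zero_pow (pow_ne_zero _ (Fact.out : p.Prime).ne_zero)] at hadd
      linear_combination -hadd
    have h5 := sum_perm hsum σ
    have h6 : t (σ 2) = -(t (σ 0) + t (σ 1)) := by linear_combination h5
    rw [h4, h6]
    linear_combination -e0 - e1

theorem R_of_sh [Finite L] (h0 : ∀ i, t i ≠ 0) (hsum : t 0 + t 1 + t 2 = 0) {σ : G3}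
    (h : sh σ (kt t) = kt t) : ∃ j, R p j t σ⁻¹ := by
  have h1 := congrFun h 1
  have h2 : ann (t (σ⁻¹ 0) / t (σ⁻¹ 1)) = ann (t 0 / t 1) := by
    have e : sh σ (kt t) 1 = kt t (σ⁻¹ * 1) := rfl
    rw [e, mul_one] at h1
    exact h1
  obtain ⟨j, hj⟩ := exists_frob (p := p) h2.symm
  exact ⟨j, R_of_ratio h0 hsum j σ⁻¹ hj⟩

theorem sh_of_R {j : ℕ} {σ : G3} (h : R p j t σ) : sh σ⁻¹ (kt t) = kt t := by
  obtain ⟨c, hc, h⟩ := h
  funext g
  show kt t (σ⁻¹⁻¹ * g) = kt t g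
  rw [inv_inv]
  show ann (t (σ (g 0)) / t (σ (g 1))) = ann (t (g 0) / t (g 1))
  rw [← ann_pow_char (p := p) (t (g 0) / t (g 1)) j, div_pow, h, h, mul_div_mul_left _ _ hc]

theorem R_mul {j j' : ℕ} {σ σ' : G3} (h : R p j t σ) (h' : R p j' t σ') :
    R p (j + j') t (σ' * σ) := by
  obtain ⟨c, hc, h⟩ := h
  obtain ⟨c', hc', h'⟩ := h'
  refine ⟨c ^ p ^ j' * c', mul_ne_zero (pow_ne_zero _ hc) hc', fun i => ?_⟩
  rw [pow_add, pow_mul, h, mul_pow, h']
  show _ = _ * t (σ' (σ i))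
  ring

theorem Fx_of_R {j : ℕ} {σ σ' : G3} (h : R p j t σ) (h' : R p j t σ') : Fx t (σ * σ'⁻¹) := by
  obtain ⟨c, hc, h⟩ := h
  obtain ⟨c', hc', h'⟩ := h'
  refine ⟨c⁻¹ * c', mul_ne_zero (inv_ne_zero hc) hc', fun k => ?_⟩
  have h1 := h (σ'⁻¹ k)
  have h2 := h' (σ'⁻¹ k)
  rw [h1] at h2
  have e : σ' (σ'⁻¹ k) = k := by
    show (σ' * σ'⁻¹) k = k
    rw [mul_inv_cancel]
    rfl
  rw [e] at h2
  show t (σ (σ'⁻¹ k)) = _
  rw [mul_assoc, ← h2]
  field_simp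

theorem Fx_odd (h0 : ∀ i, t i ≠ 0) {w : G3} (hw : Equiv.Perm.sign w = -1) (h : Fx t w) :
    ∃ a b, a ≠ b ∧ t a = t b := by
  obtain ⟨c, hc, h⟩ := h
  obtain ⟨a, b, d, hab, h1, h2⟩ : ∃ a b d, a ≠ b ∧ w a = b ∧ w d = d := by
    clear h
    revert w
    decide
  have h3 := h d
  rw [h2] at h3
  have h4 : c = 1 := by
    have h5 : t d * (c - 1) = 0 := by linear_combination -h3
    exact sub_eq_zero.1 ((mul_eq_zero.1 h5).resolve_left (h0 d))
  have h5 := h a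
  rw [h1, h4, one_mul] at h5
  exact ⟨a, b, hab, h5.symm⟩

theorem Fx_even (h0 : ∀ i, t i ≠ 0) (hsum : t 0 + t 1 + t 2 = 0) {w : G3}
    (hw : Equiv.Perm.sign w = 1) (hw1 : w ≠ 1) (h : Fx t w) : t 0 ^ 2 + t 0 * t 1 + t 1 ^ 2 = 0 := by
  obtain ⟨c, hc, h⟩ := h
  have hcase : (w 0 = 1 ∧ w 1 = 2) ∨ (w 0 = 2 ∧ w 2 = 1) := by
    clear h
    revert w
    decide
  rcases hcase with ⟨h1, h2⟩ | ⟨h1, h2⟩
  · have e1 := h 0
    have e2 := h 1
    rw [h1] at e1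
    rw [h2, e1] at e2
    rw [e2, e1] at hsum
    have h3 : t 0 * (1 + c + c ^ 2) = 0 := by linear_combination hsum
    have h4 := (mul_eq_zero.1 h3).resolve_left (h0 0)
    rw [e1]
    linear_combination (t 0) ^ 2 * h4
  · have e1 := h 0
    have e2 := h 2
    rw [h1] at e1
    rw [h2, e1] at e2
    rw [e2, e1] at hsum
    have h3 : t 0 * (1 + c + c ^ 2) = 0 := by linear_combination hsum
    have h4 := (mul_eq_zero.1 h3).resolve_left (h0 0)
    rw [e2]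
    linear_combination (t 0) ^ 2 * (1 - c + c ^ 2) * h4

theorem omega_ne (h5 : 5 ≤ p) (h0 : ∀ i, t i ≠ 0) (hsum : t 0 + t 1 + t 2 = 0)
    (hω : t 0 ^ 2 + t 0 * t 1 + t 1 ^ 2 = 0) (a b : Fin 3) (hab : a ≠ b) : t a ≠ t b := by
  have h3 : (3 : L) ≠ 0 := by
    have h : ((3 : ℕ) : L) ≠ 0 := by
      rw [Ne, CharP.cast_eq_zero_iff L p]
      intro hd
      have := Nat.le_of_dvd (by norm_num) hd
      omega
    exact_mod_cast h
  have h2 : t 2 = -(t 0 + t 1) := by linear_combination hsum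
  have key : ∀ u v : L, u ≠ 0 → u ^ 2 + u * v + v ^ 2 = 0 → u ≠ v := by
    rintro u v hu h rfl
    have h4 : 3 * u ^ 2 = 0 := by linear_combination h
    rcases mul_eq_zero.1 h4 with h6 | h6
    · exact h3 h6
    · exact hu ((pow_eq_zero_iff two_ne_zero).1 h6)
  have k01 := key (t 0) (t 1) (h0 0) hω
  have k02 := key (t 0) (t 2) (h0 0) (by rw [h2]; linear_combination hω)
  have k12 := key (t 1) (t 2) (h0 1) (by rw [h2]; linear_combination hω)
  fin_cases a <;> fin_cases b <;> first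
    | exact absurd rfl hab
    | exact k01
    | exact k02
    | exact k12
    | exact k01.symm
    | exact k02.symm
    | exact k12.symm

theorem period_dvd {n : ℕ} (hn : n.Prime) (u : L) (j f : ℕ) (h1 : u ^ p ^ (n * j) = u)
    (h2 : u ^ p ^ j ≠ u) (h3 : u ^ p ^ f = u) : n ∣ f := by
  have hit : ∀ k : ℕ, (fun x : L => x ^ p)^[k] u = u ^ p ^ k := by
    intro k
    rw [pow_iterate]
  have hper : ∀ k : ℕ, Function.IsPeriodicPt (fun x : L => x ^ p) k u ↔ u ^ p ^ k = u := by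
    intro k
    unfold Function.IsPeriodicPt Function.IsFixedPt
    rw [hit]
  set d := Function.minimalPeriod (fun x : L => x ^ p) u with hd
  have d1 : d ∣ n * j := ((hper _).2 h1).minimalPeriod_dvd
  have d2 : d ∣ f := ((hper _).2 h3).minimalPeriod_dvd
  have d3 : ¬ d ∣ j := by
    rintro ⟨k, hk⟩
    apply h2
    rw [← hper, hk]
    exact (Function.isPeriodicPt_minimalPeriod (fun x : L => x ^ p) u).mul_const k
  by_contra hnf
  apply d3
  have h4 : Nat.Coprime d n := by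
    rw [Nat.coprime_comm, hn.coprime_iff_not_dvd]
    exact fun h => hnf (h.trans d2)
  exact h4.dvd_of_dvd_mul_left d1

/-- a transposition in the stabilizer -/
theorem type_odd [Finite L] (h5 : 5 ≤ p) (h0 : ∀ i, t i ≠ 0) (hsum : t 0 + t 1 + t 2 = 0)
    {f : ℕ} (hf : ∀ i, t i ^ p ^ f = t i) {σ : G3} (hσ : Equiv.Perm.sign σ = -1)
    (h : sh σ (kt t) = kt t) : (∃ a b, a ≠ b ∧ t a = t b) ∨ 2 ∣ f := by
  obtain ⟨j, c, hc, hj⟩ := R_of_sh (p := p) h0 hsum h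
  have hw : Equiv.Perm.sign σ⁻¹ = -1 := by rw [Equiv.Perm.sign_inv, hσ]
  generalize σ⁻¹ = w at hj hw
  obtain ⟨a, b, hab, h1, h2⟩ : ∃ a b, a ≠ b ∧ w a = b ∧ w b = a := by
    clear hj
    revert w
    decide
  by_cases hab' : t a = t b
  · exact Or.inl ⟨a, b, hab, hab'⟩
  right
  have ha := h0 a
  have hb := h0 b
  have e1 : (t a / t b) ^ p ^ j = t b / t a := by
    rw [div_pow, hj, hj, h1, h2, mul_div_mul_left _ _ hc]
  refine period_dvd (p := p) Nat.prime_two (t a / t b) j f ?_ ?_ ?_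
  · rw [two_mul, pow_add, pow_mul, e1, ← inv_div (t a) (t b), inv_pow, e1, inv_div]
  · rw [e1]
    intro h3
    rw [div_eq_div_iff ha hb] at h3
    have h4 : (t a - t b) * (t a + t b) = 0 := by linear_combination -h3
    rcases mul_eq_zero.1 h4 with h6 | h6
    · exact hab' (sub_eq_zero.1 h6)
    · obtain ⟨s, hs1, hs2⟩ : ∃ s : G3, s 0 = a ∧ s 1 = b := by
        clear hj h1 h2 e1 h3 h4 h6 hab' ha hb
        revert a b
        decide
      have hd := sum_perm hsum s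
      rw [hs1, hs2] at hd
      apply h0 (s 2)
      linear_combination hd - h6
  · rw [div_pow, hf, hf]

/-- a cycle of length three in the stabilizer -/
theorem type_even [Finite L] (h0 : ∀ i, t i ≠ 0) (hsum : t 0 + t 1 + t 2 = 0)
    {f : ℕ} (hf : ∀ i, t i ^ p ^ f = t i) {σ : G3} (hσ : Equiv.Perm.sign σ = 1) (hσ1 : σ ≠ 1)
    (h : sh σ (kt t) = kt t) : t 0 ^ 2 + t 0 * t 1 + t 1 ^ 2 = 0 ∨ 3 ∣ f := by
  obtain ⟨j, hj⟩ := R_of_sh (p := p) h0 hsum h
  have hw : Equiv.Perm.sign σ⁻¹ = 1 := by rw [Equiv.Perm.sign_inv, hσ]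
  have hw1 : σ⁻¹ ≠ 1 := inv_ne_one.2 hσ1
  generalize σ⁻¹ = w at hj hw hw1
  have hw3 : w * (w * w) = 1 := by
    clear hj
    revert w
    decide
  have h3 := R_mul (R_mul hj hj) hj
  rw [hw3] at h3
  obtain ⟨c, hc, h3⟩ := h3
  by_cases h4 : (t 0 / t 1) ^ p ^ j = t 0 / t 1
  · left
    have h6 : R p j t 1 := R_of_ratio h0 hsum j 1 h4
    have h7 := Fx_of_R hj h6
    rw [inv_one, mul_one] at h7
    exact Fx_even h0 hsum hw hw1 h7
  · right
    refine period_dvd (p := p) Nat.prime_three (t 0 / t 1) j f ?_ h4 ?_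
    · have e : 3 * j = j + j + j := by ring
      rw [e, div_pow, h3, h3, mul_div_mul_left _ _ hc]
      rfl
    · rw [div_pow, hf, hf]

/-- both in the stabilizer -/
theorem type_both (q : ℕ) [Fact q.Prime] [CharP L q] [Finite L] (h0 : ∀ i, t i ≠ 0) (hsum : t 0 + t 1 + t 2 = 0)
    {σ ρ : G3} (hσ : Equiv.Perm.sign σ = -1) (hρ : Equiv.Perm.sign ρ = 1) (hρ1 : ρ ≠ 1)
    (h : sh σ (kt t) = kt t) (h' : sh ρ (kt t) = kt t) :
    t 0 ^ 2 + t 0 * t 1 + t 1 ^ 2 = 0 := by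
  obtain ⟨i, hi⟩ := R_of_sh (p := q) h0 hsum h
  obtain ⟨j, hj⟩ := R_of_sh (p := q) h0 hsum h'
  have h1 := R_mul hi hj
  have h2 := R_mul hj hi
  rw [add_comm j i] at h2
  have h3 := Fx_of_R h1 h2
  obtain ⟨e1, e2⟩ : Equiv.Perm.sign (ρ⁻¹ * σ⁻¹ * (σ⁻¹ * ρ⁻¹)⁻¹) = 1 ∧
      ρ⁻¹ * σ⁻¹ * (σ⁻¹ * ρ⁻¹)⁻¹ ≠ 1 := by
    have key : ∀ s r : G3, Equiv.Perm.sign s = -1 → Equiv.Perm.sign r = 1 → r ≠ 1 →
        r * s ≠ s * r := by
      decide
    constructor
    · simp only [map_mul, map_inv, Equiv.Perm.sign_inv, hσ, hρ]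
      decide
    · intro h4
      refine key σ⁻¹ ρ⁻¹ (by rw [Equiv.Perm.sign_inv, hσ]) (by rw [Equiv.Perm.sign_inv, hρ])
        (inv_ne_one.2 hρ1) ?_
      exact mul_inv_eq_one.1 h4
  exact Fx_even h0 hsum e1 e2 h3

theorem omega_cube (hω : t 0 ^ 2 + t 0 * t 1 + t 1 ^ 2 = 0) (h0 : ∀ i, t i ≠ 0) :
    (t 0 / t 1) ^ 3 = 1 := by
  have h1 := h0 1
  rw [div_pow, div_eq_one_iff_eq (pow_ne_zero 3 h1)]
  linear_combination (t 0 - t 1) * hω

/-- cube roots of unity, first case -/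
theorem omega_one [Finite L] (h5 : 5 ≤ p) (hp3 : p % 3 = 1) (h0 : ∀ i, t i ≠ 0)
    (hsum : t 0 + t 1 + t 2 = 0) (hω : t 0 ^ 2 + t 0 * t 1 + t 1 ^ 2 = 0) {σ : G3}
    (hσ : Equiv.Perm.sign σ = -1) (h : sh σ (kt t) = kt t) : False := by
  obtain ⟨j, hj⟩ := R_of_sh (p := p) h0 hsum h
  have h3 := omega_cube hω h0
  have h4 : (t 0 / t 1) ^ p ^ j = t 0 / t 1 := by
    have e : p ^ j % 3 = 1 := by
      rw [Nat.pow_mod, hp3, one_pow]
      norm_num
    have e2 : p ^ j = 3 * (p ^ j / 3) + 1 := by omega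
    rw [e2, pow_succ, pow_mul, h3, one_pow, one_mul]
  have h6 : R p j t 1 := R_of_ratio h0 hsum j 1 h4
  have h7 := Fx_of_R hj h6
  rw [inv_one, mul_one] at h7
  obtain ⟨a, b, hab, h8⟩ := Fx_odd h0 (by rw [Equiv.Perm.sign_inv, hσ]) h7
  exact omega_ne h5 h0 hsum hω a b hab h8

/-- cube roots of unity, second case -/
theorem omega_two (h5 : 5 ≤ p) (hp3 : p % 3 = 2) (h0 : ∀ i, t i ≠ 0)
    (hsum : t 0 + t 1 + t 2 = 0) (hω : t 0 ^ 2 + t 0 * t 1 + t 1 ^ 2 = 0) {f : ℕ}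
    (hf : ∀ i, t i ^ p ^ f = t i) :
    2 ∣ f ∧ sh (Equiv.swap (0 : Fin 3) 1) (kt t) = kt t := by
  have h3 := omega_cube hω h0
  have ha := h0 0
  have hb := h0 1
  have e1 : (t 0 / t 1) ^ p = (t 0 / t 1) ^ 2 := by
    have e2 : p = 3 * (p / 3) + 2 := by omega
    conv_lhs => rw [e2]
    rw [pow_add, pow_mul, h3, one_pow, one_mul]
  have e3 : (t 0 / t 1) ^ 2 = t 1 / t 0 := by
    rw [eq_div_iff ha]
    calc (t 0 / t 1) ^ 2 * t 0 = (t 0 / t 1) ^ 3 * t 1 := by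
          field_simp
      _ = t 1 := by rw [h3, one_mul]
  refine ⟨period_dvd (p := p) Nat.prime_two (t 0 / t 1) 1 f ?_ ?_ ?_, ?_⟩
  · rw [two_mul, pow_add, pow_mul, pow_one, e1, ← pow_mul, mul_comm 2 p, pow_mul, e1, ← pow_mul]
    calc (t 0 / t 1) ^ (2 * 2) = (t 0 / t 1) ^ 3 * (t 0 / t 1) := by ring
      _ = _ := by rw [h3, one_mul]
  · rw [pow_one, e1]
    intro h4
    have h6 : (t 0 / t 1) = 1 := by
      calc (t 0 / t 1) = (t 0 / t 1) ^ 2 * (t 0 / t 1)⁻¹ := by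
            have : t 0 / t 1 ≠ 0 := div_ne_zero ha hb
            field_simp
        _ = (t 0 / t 1) * (t 0 / t 1)⁻¹ := by rw [h4]
        _ = 1 := mul_inv_cancel₀ (div_ne_zero ha hb)
    rw [div_eq_one_iff_eq hb] at h6
    exact omega_ne h5 h0 hsum hω 0 1 (by decide) h6
  · rw [div_pow, hf, hf]
  · have h7 : R p 1 t (Equiv.swap (0 : Fin 3) 1) := by
      apply R_of_ratio h0 hsum
      rw [pow_one, e1, e3, Equiv.swap_apply_left, Equiv.swap_apply_right]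
    have h8 := sh_of_R h7
    rwa [Equiv.swap_inv] at h8

end

end Pool.Agent.W71.FS
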