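import Pool.Agent.W71.FS.Fin

/-!
# The main theorem
-/

set_option autoImplicit false

namespace Pool.Agent.W71.FS

open NumberField IsDedekindDomain Polynomial
open Pool.Agent.Y546.WQ

section

variable {K : Type} [Field K] [NumberField K]

theorem hom2_val {X Y : 𝓞 K} (v : HeightOneSpectrum (𝓞 K)) (hY : Y ∉ v.asIdeal) (h : ℤ[X]) :
    hom2 h X Y ∈ v.asIdeal ↔
      v.valuation K (aeval (algebraMap (𝓞 K) K X / algebraMap (𝓞 K) K Y) h) < 1 := by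
  have hY0 : algebraMap (𝓞 K) K Y ≠ 0 := by
    intro h0
    apply hY
    have : Y = 0 := RingOfIntegers.coe_injective (by rw [map_zero]; exact h0)
    rw [this]
    exact zero_mem _
  have e := map_hom2 (algebraMap (𝓞 K) K) h X Y hY0
  rw [← v.valuation_lt_one_iff_mem (K := K)]
  show v.valuation K (algebraMap (𝓞 K) K (hom2 h X Y)) < 1 ↔ _
  have e2 : v.valuation K (algebraMap (𝓞 K) K Y) = 1 := val_one v Y hY
  rw [e, map_mul, map_pow, e2, one_pow, one_mul]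

theorem sum_all {q : ℕ} (hq : q.Prime) :
    ∑ᶠ v ∈ Ab q K, ldeg v.asIdeal = Module.finrank ℚ K := by
  classical
  haveI : Fact q.Prime := ⟨hq⟩
  have h1 := finsum_conv (K := K) hq (fun _ => True)
  have e1 : {v | v ∈ Ab q K ∧ True} = Ab q K := by
    ext v
    simp
  rw [e1] at h1
  rw [← h1, finsum_eq hq, ← sum_ldeg hq K]
  refine Finset.sum_congr ?_ fun _ _ => rfl
  simp

/-- the main theorem at the primes above `p` -/
theorem lastP {p : ℕ} (hp : p.Prime)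
    (hreg : (2 * Module.finrank ℚ K + 3 ≤ p ∧ ∀ k ∈ irr p, k + 2 * Module.finrank ℚ K + 1 < p) ∨
      Module.finrank ℚ K * (((irr p).card + 1) * ((irr p).card + 2)) + 3 ≤ p)
    {x : Fin 3 → K} (hx : ∀ i, x i ≠ 0) (h : x 0 ^ p + x 1 ^ p + x 2 ^ p = 0)
    (hv : ∀ v : HeightOneSpectrum (𝓞 K), ((p : ℕ) : 𝓞 K) ∈ v.asIdeal →
      v.valuation K (x 0) = v.valuation K (x 1) ∧ v.valuation K (x 1) = v.valuation K (x 2)) :
    (∀ (h : ℤ[X]) (i j i' j' : Fin 3), i ≠ j → i' ≠ j' →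
      ∑ᶠ v ∈ {v | v ∈ Ab p K ∧ v.valuation K (aeval (x i / x j) h) < 1}, ldeg v.asIdeal =
        ∑ᶠ v ∈ {v | v ∈ Ab p K ∧ v.valuation K (aeval (x i' / x j') h) < 1}, ldeg v.asIdeal) ∧
    (∃ T : HeightOneSpectrum (𝓞 K) → Fin 4,
      BalV 6 {v | v ∈ Ab p K ∧ T v = 0} ∧
      BalV 3 {v | v ∈ Ab p K ∧ T v = 1} ∧
      BalV 2 {v | v ∈ Ab p K ∧ T v = 2} ∧
      (p % 3 = 1 → BalV 2 {v | v ∈ Ab p K ∧ T v = 3}) ∧
      (∀ v ∈ Ab p K, T v = 1 → p ^ 2 ∣ 2 ^ (p - 1) - 1 ∨ 2 ∣ v.asIdeal.inertiaDeg ℤ) ∧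
      (∀ v ∈ Ab p K, T v = 2 → 3 ∣ v.asIdeal.inertiaDeg ℤ) ∧
      (∀ v ∈ Ab p K, T v = 3 → p % 3 = 2 → 2 ∣ v.asIdeal.inertiaDeg ℤ) ∧
      (∀ v ∈ Ab p K, T v = 3 ↔
        v.valuation K ((x 0 / x 1) ^ 2 + x 0 / x 1 + 1) < 1)) := by
  obtain ⟨s, X, Y, Z, hs0, hX, hY, hZ, hs, -⟩ := prep' hp (hx 0) (hx 1) (hx 2) h hv
  have hF : SolF p K ![X, Y, Z] := hs
  have hcoe : ∀ i, algebraMap (𝓞 K) K ((![X, Y, Z] : Fin 3 → 𝓞 K) i) = s * x i := by
    intro i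
    fin_cases i
    · exact hX
    · exact hY
    · exact hZ
  obtain ⟨h1, T, h2, h3, h4, h8, h5, h6, h7, h9⟩ := mainP hp hreg hF
  refine ⟨fun h i j i' j' hij hij' => ?_, fun v => T v.asIdeal, balV_of hp _ h2, balV_of hp _ h3,
    balV_of hp _ h4, fun hp3 => balV_of hp _ (h8 hp3), fun v hv' hT => h5 _ ⟨v.isPrime, hv'⟩ hT,
    fun v hv' hT => h6 _ ⟨v.isPrime, hv'⟩ hT, fun v hv' hT => h7 _ ⟨v.isPrime, hv'⟩ hT,
    fun v hv' => ?_⟩
  rotate_left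
  · rw [h9 _ ⟨v.isPrime, hv'⟩]
    have hY1 : Y ∉ v.asIdeal := (hs.cp _ v.isPrime hv').2.1
    have e1 := hom2_val (X := X) v hY1 (Polynomial.X ^ 2 + Polynomial.X + 1)
    have e2 : hom2 (Polynomial.X ^ 2 + Polynomial.X + 1) X Y = X ^ 2 + X * Y + Y ^ 2 := by
      unfold hom2
      have hd : (Polynomial.X ^ 2 + Polynomial.X + 1 : ℤ[X]).natDegree = 2 := by
        compute_degree!
      rw [hd, Finset.sum_range_succ, Finset.sum_range_succ, Finset.sum_range_succ,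
        Finset.sum_range_zero]
      have c0 : (Polynomial.X ^ 2 + Polynomial.X + 1 : ℤ[X]).coeff 0 = 1 := by
        simp
      have c1 : (Polynomial.X ^ 2 + Polynomial.X + 1 : ℤ[X]).coeff 1 = 1 := by
        simp [coeff_one]
      have c2 : (Polynomial.X ^ 2 + Polynomial.X + 1 : ℤ[X]).coeff 2 = 1 := by
        simp [coeff_one, coeff_X]
      rw [c0, c1, c2]
      push_cast
      ring
    rw [e2] at e1
    have e3 : algebraMap (𝓞 K) K X / algebraMap (𝓞 K) K Y = x 0 / x 1 := by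
      rw [hX, hY, mul_div_mul_left _ _ hs0]
    rw [e3] at e1
    have e4 : aeval (x 0 / x 1) (Polynomial.X ^ 2 + Polynomial.X + 1 : ℤ[X]) =
        (x 0 / x 1) ^ 2 + x 0 / x 1 + 1 := by
      rw [map_add, map_add, map_pow, aeval_X, map_one]
    rw [e4] at e1
    exact e1
  have key : ∀ i j : Fin 3, ∑ᶠ v ∈ {v | v ∈ Ab p K ∧
      v.valuation K (aeval (x i / x j) h) < 1}, ldeg v.asIdeal =
      ∑ᶠ P ∈ {P | P ∈ above p K ∧
        hom2 h ((![X, Y, Z] : Fin 3 → 𝓞 K) i) ((![X, Y, Z] : Fin 3 → 𝓞 K) j) ∈ P}, ldeg P := by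
    intro i j
    rw [finsum_conv hp]
    have e : {v | v ∈ Ab p K ∧ v.valuation K (aeval (x i / x j) h) < 1} =
        {v | v ∈ Ab p K ∧ hom2 h ((![X, Y, Z] : Fin 3 → 𝓞 K) i)
          ((![X, Y, Z] : Fin 3 → 𝓞 K) j) ∈ v.asIdeal} := by
      ext v
      refine and_congr_right fun hv' => ?_
      rw [hom2_val v ((solF_iff.1 hF).2.2 _ v.isPrime hv' j) h, hcoe, hcoe,
        mul_div_mul_left _ _ hs0]
    rw [e]
  rw [key, key]
  exact h1 h i j i' j' hij hij'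

/-- consequences -/
theorem conseq {p : ℕ} (hp : p.Prime) (hp3 : p % 3 = 1 ∨ p % 3 = 2)
    (T : HeightOneSpectrum (𝓞 K) → Fin 4)
    (h2 : BalV 6 {v | v ∈ Ab p K ∧ T v = 0}) (h3 : BalV 3 {v | v ∈ Ab p K ∧ T v = 1})
    (h4 : BalV 2 {v | v ∈ Ab p K ∧ T v = 2})
    (h8 : p % 3 = 1 → BalV 2 {v | v ∈ Ab p K ∧ T v = 3})
    (h6 : ∀ v ∈ Ab p K, T v = 2 → 3 ∣ v.asIdeal.inertiaDeg ℤ)
    (h7 : ∀ v ∈ Ab p K, T v = 3 → p % 3 = 2 → 2 ∣ v.asIdeal.inertiaDeg ℤ) :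
    ((p % 3 = 1 ∨ ∃ v ∈ Ab p K, ¬ 2 ∣ v.asIdeal.inertiaDeg ℤ) →
      ∃ B C : Set (HeightOneSpectrum (𝓞 K)), B ⊆ Ab p K ∧ C ⊆ Ab p K ∧ B.Nonempty ∧
        C.Nonempty ∧ Disjoint B C ∧ ∑ᶠ v ∈ B, ldeg v.asIdeal = ∑ᶠ v ∈ C, ldeg v.asIdeal) ∧
    (p % 3 = 2 → (∀ v ∈ Ab p K, ¬ 2 ∣ v.asIdeal.inertiaDeg ℤ) → 3 ∣ Module.finrank ℚ K) := by
  classical
  constructor
  · intro h
    have key : ∀ {n : ℕ} (t : Fin 4) (v : HeightOneSpectrum (𝓞 K)), v ∈ Ab p K → 2 ≤ n →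
        T v = t → BalV n {v | v ∈ Ab p K ∧ T v = t} →
        ∃ B C : Set (HeightOneSpectrum (𝓞 K)), B ⊆ Ab p K ∧ C ⊆ Ab p K ∧ B.Nonempty ∧
        C.Nonempty ∧ Disjoint B C ∧ ∑ᶠ v ∈ B, ldeg v.asIdeal = ∑ᶠ v ∈ C, ldeg v.asIdeal := by
      intro n t v hv hn ht hb
      obtain ⟨B, C, hB, hC, k1, k2, k3, k4⟩ :=
        two_sets (A := {v | v ∈ Ab p K ∧ T v = t}) hp hn (fun v hv => hv.1) ⟨v, hv, ht⟩ hb
      exact ⟨B, C, fun v hv => (hB hv).1, fun v hv => (hC hv).1, k1, k2, k3, k4⟩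
    obtain ⟨v, hv, hT⟩ : ∃ v ∈ Ab p K, T v = 3 → p % 3 = 1 := by
      rcases h with h | ⟨v, hv, h⟩
      · obtain ⟨M, hM, hMp⟩ := exists_above (K := K) p hp
        have h0 : M ≠ ⊥ := by
          rintro rfl
          rw [Ideal.mem_bot, Nat.cast_eq_zero] at hMp
          exact hp.ne_zero hMp
        exact ⟨⟨M, hM, h0⟩, hMp, fun _ => h⟩
      · refine ⟨v, hv, fun hT => ?_⟩
        rcases hp3 with h9 | h9
        · exact h9
        · exact absurd (h7 v hv hT h9) h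
    have hcase : T v = 0 ∨ T v = 1 ∨ T v = 2 ∨ T v = 3 := by
      generalize T v = t
      revert t
      decide
    rcases hcase with h | h | h | h
    · exact key 0 v hv (by norm_num) h h2
    · exact key 1 v hv (by norm_num) h h3
    · exact key 2 v hv (by norm_num) h h4
    · exact key 3 v hv (by norm_num) h (h8 (hT h))
  · intro hp3 hodd
    rw [← sum_all (K := K) hp, finsum_mem_eq_finite_toFinset_sum _ (ab_finite hp K),
      ← Finset.sum_fiberwise_of_maps_to (t := (Finset.univ : Finset (Fin 4))) (g := T)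
      (fun v _ => Finset.mem_univ _)]
    refine Finset.dvd_sum fun t _ => ?_
    have e : ∑ v ∈ (ab_finite hp K).toFinset.filter (fun v => T v = t), ldeg v.asIdeal =
        ∑ᶠ v ∈ {v | v ∈ Ab p K ∧ T v = t}, ldeg v.asIdeal := by
      have e1 : {v | v ∈ Ab p K ∧ T v = t} =
        (((ab_finite hp K).toFinset.filter (fun v => T v = t) :
          Finset (HeightOneSpectrum (𝓞 K))) : Set (HeightOneSpectrum (𝓞 K))) := by
        ext v
        simp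
      rw [e1, finsum_mem_coe_finset]
    rw [e]
    fin_cases t
    · exact (show 3 ∣ 6 by norm_num).trans (dvd_sum hp (fun v hv => hv.1) h2)
    · exact dvd_sum hp (fun v hv => hv.1) h3
    · rw [← e]
      refine Finset.dvd_sum fun v hv => ?_
      rw [Finset.mem_filter, Set.Finite.mem_toFinset] at hv
      exact (h6 v hv.1 hv.2).mul_left _
    · rw [← e]
      refine Finset.dvd_sum fun v hv => ?_
      rw [Finset.mem_filter, Set.Finite.mem_toFinset] at hv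
      exact absurd (h7 v hv.1 hv.2 hp3) (hodd v hv.1)

/-- membership of the scaled coordinates in terms of valuations -/
theorem mem_iff_lt {s : K} {x : Fin 3 → K} {Y : Fin 3 → 𝓞 K} (hs0 : s ≠ 0)
    (hY : ∀ i, algebraMap (𝓞 K) K (Y i) = s * x i) (v : HeightOneSpectrum (𝓞 K))
    (hn : ¬ ∀ i, Y i ∈ v.asIdeal) (i : Fin 3) :
    Y i ∈ v.asIdeal ↔ ∃ j, v.valuation K (x i) < v.valuation K (x j) := by
  have e : ∀ i, v.valuation K (algebraMap (𝓞 K) K (Y i)) =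
      v.valuation K s * v.valuation K (x i) := by
    intro i
    rw [hY, map_mul]
  have hle : ∀ i, v.valuation K (algebraMap (𝓞 K) K (Y i)) ≤ 1 := fun i =>
    v.valuation_le_one (K := K) (Y i)
  have hmem : ∀ i, Y i ∈ v.asIdeal ↔ v.valuation K (algebraMap (𝓞 K) K (Y i)) < 1 := fun i =>
    (v.valuation_lt_one_iff_mem (K := K) (Y i)).symm
  have hs1 : v.valuation K s ≠ 0 := (Valuation.ne_zero_iff _).2 hs0
  have hspos : 0 < v.valuation K s := zero_lt_iff.2 hs1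
  constructor
  · intro h
    push Not at hn
    obtain ⟨j, hj⟩ := hn
    refine ⟨j, ?_⟩
    have h1 : v.valuation K (algebraMap (𝓞 K) K (Y i)) <
        v.valuation K (algebraMap (𝓞 K) K (Y j)) := by
      have h2 : v.valuation K (algebraMap (𝓞 K) K (Y j)) = 1 :=
        le_antisymm (hle j) (not_lt.1 fun h3 => hj ((hmem j).2 h3))
      rw [h2]
      exact (hmem i).1 h
    rw [e, e] at h1
    exact (mul_lt_mul_iff_right₀ hspos).1 h1
  · rintro ⟨j, hj⟩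
    rw [hmem]
    calc v.valuation K (algebraMap (𝓞 K) K (Y i)) <
        v.valuation K (algebraMap (𝓞 K) K (Y j)) := by
          rw [e, e]
          exact (mul_lt_mul_iff_right₀ hspos).2 hj
      _ ≤ 1 := hle j

/-- the main theorem at the primes above two -/
theorem lastTwo {p : ℕ} (hp : p.Prime)
    (hreg : (2 * Module.finrank ℚ K + 3 ≤ p ∧ ∀ k ∈ irr p, k + 2 * Module.finrank ℚ K < p) ∨
      Module.finrank ℚ K * (((irr p).card + 1) * ((irr p).card + 2)) + 3 ≤ p)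
    (hW : ¬ p ^ 2 ∣ 2 ^ (p - 1) - 1)
    (hK2 : ∀ v ∈ Ab 2 K, Nat.card (𝓞 K ⧸ v.asIdeal) = 2 ∨ Nat.card (𝓞 K ⧸ v.asIdeal) = 4)
    {x : Fin 3 → K} (hx : ∀ i, x i ≠ 0) (h : x 0 ^ p + x 1 ^ p + x 2 ^ p = 0)
    (hv : ∀ v : HeightOneSpectrum (𝓞 K), ((p : ℕ) : 𝓞 K) ∈ v.asIdeal →
      v.valuation K (x 0) = v.valuation K (x 1) ∧ v.valuation K (x 1) = v.valuation K (x 2)) :
    (∀ i j : Fin 3,
      ∑ᶠ v ∈ {v | v ∈ Ab 2 K ∧ ∃ k, v.valuation K (x i) < v.valuation K (x k)}, ldeg v.asIdeal =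
      ∑ᶠ v ∈ {v | v ∈ Ab 2 K ∧ ∃ k, v.valuation K (x j) < v.valuation K (x k)},
        ldeg v.asIdeal) ∧
    (∀ v ∈ Ab 2 K, ∀ i j : Fin 3, i ≠ j →
      ¬ ((∃ k, v.valuation K (x i) < v.valuation K (x k)) ∧
        ∃ k, v.valuation K (x j) < v.valuation K (x k))) ∧
    (∀ v ∈ Ab 2 K, Nat.card (𝓞 K ⧸ v.asIdeal) = 2 →
      ∃ i k, v.valuation K (x i) < v.valuation K (x k)) := by
  obtain ⟨s, X, Y, Z, hs0, hX, hY, hZ, hs, hs2⟩ := prep' hp (hx 0) (hx 1) (hx 2) h hv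
  obtain ⟨h1, h2, h3, h4⟩ := mainTwo4 hp hreg hW (fun P hP => by
    have h0 : P ≠ ⊥ := by
      rintro rfl
      have := hP.2
      rw [Ideal.mem_bot, Nat.cast_eq_zero] at this
      exact absurd this (by norm_num)
    exact hK2 ⟨P, hP.1, h0⟩ hP.2) hs hs2
  have hcoe : ∀ i, algebraMap (𝓞 K) K ((![X, Y, Z] : Fin 3 → 𝓞 K) i) = s * x i := by
    intro i
    fin_cases i
    · exact hX
    · exact hY
    · exact hZ
  have hn : ∀ v ∈ Ab 2 K, ¬ ∀ i, (![X, Y, Z] : Fin 3 → 𝓞 K) i ∈ v.asIdeal := by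
    intro v hv hall
    exact hs2 v.asIdeal v.isPrime (by
      have : ((2 : ℕ) : 𝓞 K) ∈ v.asIdeal := hv
      exact_mod_cast this) ⟨hall 0, hall 1, hall 2⟩
  have key : ∀ i : Fin 3,
      ∑ᶠ v ∈ {v | v ∈ Ab 2 K ∧ ∃ k, v.valuation K (x i) < v.valuation K (x k)}, ldeg v.asIdeal =
      ∑ᶠ P ∈ {P | P ∈ above 2 K ∧ (![X, Y, Z] : Fin 3 → 𝓞 K) i ∈ P}, ldeg P := by
    intro i
    rw [finsum_conv Nat.prime_two]
    have e : {v | v ∈ Ab 2 K ∧ ∃ k, v.valuation K (x i) < v.valuation K (x k)} =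
        {v | v ∈ Ab 2 K ∧ (![X, Y, Z] : Fin 3 → 𝓞 K) i ∈ v.asIdeal} := by
      ext v
      exact and_congr_right fun hv => (mem_iff_lt hs0 hcoe v (hn v hv) i).symm
    rw [e]
  refine ⟨fun i j => ?_, fun v hv i j hij hcon => ?_, fun v hv hc => ?_⟩
  · rw [key, key]
    have k0 : ∀ i : Fin 3,
        ∑ᶠ P ∈ {P | P ∈ above 2 K ∧ (![X, Y, Z] : Fin 3 → 𝓞 K) i ∈ P}, ldeg P =
        ∑ᶠ P ∈ {P | P ∈ above 2 K ∧ X ∈ P}, ldeg P := by
      intro i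
      fin_cases i
      · rfl
      · exact h1.symm
      · exact (h1.trans h2).symm
    rw [k0, k0]
  · rw [← mem_iff_lt hs0 hcoe v (hn v hv) i, ← mem_iff_lt hs0 hcoe v (hn v hv) j] at hcon
    obtain ⟨k1, k2, k3⟩ := h3 v.asIdeal ⟨v.isPrime, hv⟩
    fin_cases i <;> fin_cases j
    · exact hij rfl
    · exact k1 hcon
    · exact k3 ⟨hcon.2, hcon.1⟩
    · exact k1 ⟨hcon.2, hcon.1⟩
    · exact hij rfl
    · exact k2 hcon
    · exact k3 hcon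
    · exact k2 ⟨hcon.2, hcon.1⟩
    · exact hij rfl
  · rcases h4 v.asIdeal ⟨v.isPrime, hv⟩ hc with h | h | h
    · exact ⟨0, (mem_iff_lt hs0 hcoe v (hn v hv) 0).1 h⟩
    · exact ⟨1, (mem_iff_lt hs0 hcoe v (hn v hv) 1).1 h⟩
    · exact ⟨2, (mem_iff_lt hs0 hcoe v (hn v hv) 2).1 h⟩

end

end Pool.Agent.W71.FS
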