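import Pool.Agent.W71.FS.Typ
import Pool.Agent.Y546.WQ.All2

/-!
# The structure of a solution at the primes above `p`
-/

set_option autoImplicit false

namespace Pool.Agent.W71.FS

open NumberField IsDedekindDomain Polynomial
open Pool.Agent.Y546.WQ

section

variable {p : ℕ} [Fact p.Prime] {K N : Type} [Field K] [NumberField K] [Field N] [NumberField N]

theorem inertia_pow (hp : p.Prime) {P : Ideal (𝓞 K)} (hP : P ∈ above p K) (a : 𝓞 K) :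
    a ^ p ^ P.inertiaDeg ℤ - a ∈ P := by
  have hPp : P.IsPrime := hP.1
  have hov := liesOver_of_mem hp P hP.1 hP.2
  have hP0 : P ≠ ⊥ := by
    rintro rfl
    have := hP.2
    rw [Ideal.mem_bot, Nat.cast_eq_zero] at this
    exact hp.ne_zero this
  have hPm : P.IsMaximal := hP.1.isMaximal hP0
  let _ : Field (𝓞 K ⧸ P) := Ideal.Quotient.field P
  have hfin : Finite (𝓞 K ⧸ P) := Ideal.finiteQuotientOfFreeOfNeBot P hP0
  let _ : Fintype (𝓞 K ⧸ P) := Fintype.ofFinite _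
  have hc : Fintype.card (𝓞 K ⧸ P) = p ^ P.inertiaDeg ℤ := by
    rw [Ideal.pow_inertiaDeg p P, ← Nat.card_eq_fintype_card]
    rfl
  have h1 := FiniteField.pow_card (Ideal.Quotient.mk P a)
  rw [hc] at h1
  rw [← Ideal.Quotient.eq_zero_iff_mem, map_sub, map_pow, h1, sub_self]

theorem hasOm_kt (h5 : 5 ≤ p) {L : Type} [Field L] [CharP L p] {t : Fin 3 → L}
    (h0 : ∀ i, t i ≠ 0) (hsum : t 0 + t 1 + t 2 = 0) :
    hasOm (kt t) ↔ t 0 ^ 2 + t 0 * t 1 + t 1 ^ 2 = 0 := by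
  have h2 : (2 : L) ≠ 0 := by
    have h : ((2 : ℕ) : L) ≠ 0 := by
      rw [Ne, CharP.cast_eq_zero_iff L p]
      intro hd
      have := Nat.le_of_dvd (by norm_num) hd
      omega
    exact_mod_cast h
  have key : ∀ g : G3, t (g 0) ^ 2 + t (g 0) * t (g 1) + t (g 1) ^ 2 =
      t 0 ^ 2 + t 0 * t 1 + t 1 ^ 2 := by
    intro g
    have e1 := sum_perm hsum g
    have e2 : t (g 0) ^ 2 + t (g 1) ^ 2 + t (g 2) ^ 2 = t 0 ^ 2 + t 1 ^ 2 + t 2 ^ 2 := by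
      rw [← Fin.sum_univ_three (fun i => t (g i) ^ 2), Equiv.sum_comp g (fun i => t i ^ 2),
        Fin.sum_univ_three]
    have e3 : t (g 2) = -(t (g 0) + t (g 1)) := by linear_combination e1
    have e4 : t 2 = -(t 0 + t 1) := by linear_combination hsum
    rw [e3, e4] at e2
    apply mul_left_cancel₀ h2
    linear_combination e2
  have key2 : ∀ g : G3, (X ^ 2 + X + 1 : ℤ[X]) ∈ kt t g ↔
      t 0 ^ 2 + t 0 * t 1 + t 1 ^ 2 = 0 := by
    intro g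
    have h1 := h0 (g 1)
    show aeval (t (g 0) / t (g 1)) (X ^ 2 + X + 1 : ℤ[X]) = 0 ↔ _
    rw [← key g]
    have e : ∀ a b : L, b ≠ 0 → aeval (a / b) (X ^ 2 + X + 1 : ℤ[X]) =
        (a ^ 2 + a * b + b ^ 2) / b ^ 2 := by
      intro a b hb
      rw [map_add, map_add, map_pow, aeval_X, map_one]
      field_simp
    rw [e _ _ h1, div_eq_zero_iff, or_iff_left (pow_ne_zero 2 h1)]
  constructor
  · intro h
    exact (key2 1).1 (h 1)
  · intro h g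
    exact (key2 g).2 h

theorem typ_facts (h5 : 5 ≤ p) (hcard : Nat.card (K →+* N) = Module.finrank ℚ K) (hp : p.Prime)
    (Q : Ideal (𝓞 N)) (hQ : Q.IsPrime) (hQp : ((p : ℕ) : 𝓞 N) ∈ Q)
    {L : Type} [Field L] [CharP L p] [Finite L] (ψ : 𝓞 N →+* L) (hψ : ∀ w, ψ w = 0 ↔ w ∈ Q)
    {x : Fin 3 → 𝓞 K} (hs : SolF p K x) {P : Ideal (𝓞 K)} (hP : P ∈ above p K) :
    (typ (kk x P) = 1 → (∃ i j, i ≠ j ∧ x i - x j ∈ P) ∨ 2 ∣ P.inertiaDeg ℤ) ∧
    (typ (kk x P) = 2 → ¬ hasOm (kk x P) → 3 ∣ P.inertiaDeg ℤ) ∧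
    (typ (kk x P) = 3 → hasOm (kk x P)) ∧
    (hasOm (kk x P) → p % 3 = 2 → 2 ∣ P.inertiaDeg ℤ) ∧
    (hasOm (kk x P) → p % 3 = 1 → ¬ hasOdd (kk x P)) ∧
    (hasOm (kk x P) ↔ x 0 ^ 2 + x 0 * x 1 + x 1 ^ 2 ∈ P) := by
  have hov := liesOver_of_mem hp P hP.1 hP.2
  have hPp : P.IsPrime := hP.1
  -- an embedding
  have hpos : 0 < ldeg P := Nat.mul_pos (P.ramificationIdx_pos ℤ) (P.inertiaDeg_pos ℤ)
  rw [← card_emb hcard hp Q hQ hQp P hP.1 hP.2, Nat.card_pos_iff] at hpos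
  obtain ⟨⟨τ, hτ⟩⟩ := hpos.1
  obtain ⟨h0, hsum⟩ := residue_facts Q hQ hQp ψ hψ hs τ
  set t : Fin 3 → L := fun i => ψ (RingOfIntegers.mapRingHom τ (x i)) with ht
  have hk : kk x P = kt t := by
    rw [← hτ, ← kf_eq_kk Q hQ hQp ψ hψ hs τ]
    rfl
  have hf : ∀ i, t i ^ p ^ P.inertiaDeg ℤ = t i := by
    intro i
    have h1 := inertia_pow hp hP (x i)
    rw [← hτ, Ideal.mem_comap, ← hψ, map_sub, map_sub, map_pow, map_pow, sub_eq_zero, hτ] at h1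
    exact h1
  have h0' : ∀ i, t i ≠ 0 := h0
  have hsum' : t 0 + t 1 + t 2 = 0 := hsum
  have hom := hasOm_kt (p := p) h5 h0' hsum'
  rw [hk]
  refine ⟨?_, ?_, ?_, ?_, ?_, ?_⟩
  · intro h
    obtain ⟨⟨σ, hσ, h1⟩, -⟩ := typ_one h
    rcases type_odd h5 h0' hsum' hf hσ h1 with ⟨a, b, hab, h2⟩ | h2
    · left
      refine ⟨a, b, hab, ?_⟩
      rw [← hτ, Ideal.mem_comap, ← hψ, map_sub, map_sub]
      exact sub_eq_zero.2 h2
    · exact Or.inr h2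
  · intro h h2
    obtain ⟨h3, ⟨σ, hσ, hσ1, h1⟩⟩ := typ_two h
    rcases type_even h0' hsum' hf hσ hσ1 h1 with h4 | h4
    · exact absurd (hom.2 h4) h2
    · exact h4
  · intro h
    obtain ⟨⟨σ, hσ, h1⟩, ⟨ρ, hρ, hρ1, h2⟩⟩ := typ_three h
    exact hom.2 (type_both p h0' hsum' hσ hρ hρ1 h1 h2)
  · intro h h6
    exact (omega_two h5 h6 h0' hsum' (hom.1 h) hf).1
  · rintro h h6 ⟨σ, hσ, h1⟩
    exact omega_one h5 h6 h0' hsum' (hom.1 h) hσ h1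
  · rw [hom, ← hτ, Ideal.mem_comap, ← hψ]
    simp only [map_add, map_mul, map_pow]
    rfl

end

/-- the structure of a solution in the first case -/
theorem mainP {p : ℕ} (hp : p.Prime) {K : Type} [Field K] [NumberField K]
    (hreg : (2 * Module.finrank ℚ K + 3 ≤ p ∧ ∀ k ∈ irr p, k + 2 * Module.finrank ℚ K + 1 < p) ∨
      Module.finrank ℚ K * (((irr p).card + 1) * ((irr p).card + 2)) + 3 ≤ p)
    {x : Fin 3 → 𝓞 K} (hs : SolF p K x) :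
    (∀ (h : ℤ[X]) (i j i' j' : Fin 3), i ≠ j → i' ≠ j' →
      ∑ᶠ P ∈ {P | P ∈ above p K ∧ hom2 h (x i) (x j) ∈ P}, ldeg P =
        ∑ᶠ P ∈ {P | P ∈ above p K ∧ hom2 h (x i') (x j') ∈ P}, ldeg P) ∧
    ∃ T : Ideal (𝓞 K) → Fin 4,
      Bal 6 {P | P ∈ above p K ∧ T P = 0} ∧
      Bal 3 {P | P ∈ above p K ∧ T P = 1} ∧
      Bal 2 {P | P ∈ above p K ∧ T P = 2} ∧
      (p % 3 = 1 → Bal 2 {P | P ∈ above p K ∧ T P = 3}) ∧
      (∀ P ∈ above p K, T P = 1 → p ^ 2 ∣ 2 ^ (p - 1) - 1 ∨ 2 ∣ P.inertiaDeg ℤ) ∧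
      (∀ P ∈ above p K, T P = 2 → 3 ∣ P.inertiaDeg ℤ) ∧
      (∀ P ∈ above p K, T P = 3 → p % 3 = 2 → 2 ∣ P.inertiaDeg ℤ) ∧
      (∀ P ∈ above p K, T P = 3 ↔ x 0 ^ 2 + x 0 * x 1 + x 1 ^ 2 ∈ P) := by
  classical
  have hfact : Fact p.Prime := ⟨hp⟩
  have hm := Module.finrank_pos (R := ℚ) (M := K)
  have h5 : 2 * Module.finrank ℚ K + 3 ≤ p := by
    rcases hreg with h | h
    · exact h.1
    · have e : 2 ≤ ((irr p).card + 1) * ((irr p).card + 2) := by nlinarith [(irr p).card.zero_le]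
      have := Nat.mul_le_mul_left (Module.finrank ℚ K) e
      omega
  have hp2 : p ≠ 2 := by omega
  obtain ⟨E, _, _, ⟨c⟩⟩ := Y978.WQ.main p hp2
  obtain ⟨N, _, _, i, hcard, hD⟩ := Y258.WQ.mainDOWNG p E c K (by omega)
  have hD' : Dn p E N i := hD
  have hpal : PalK p K := palK aUNITA Y261.WQ.main Y919.WQ.mainLAMA Y290.WQ.mainNORM
    (Y510.WQ.mainPOLBA Y275.WQ.mainCOREA) (Y590.WQ.mainPOLE Y780.WQ.mainPOLE1 Y286.WQ.mainPOLE2)
    Y61.WQ.mainBER c i hD' hcard hreg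
  obtain ⟨Q, hQ, hQp⟩ := exists_above (K := N) p hp
  have hQ0 : Q ≠ ⊥ := by
    rintro rfl
    rw [Ideal.mem_bot, Nat.cast_eq_zero] at hQp
    exact hp.ne_zero hQp
  have hQm : Q.IsMaximal := hQ.isMaximal hQ0
  let _ : Field (𝓞 N ⧸ Q) := Ideal.Quotient.field Q
  have hch : CharP (𝓞 N ⧸ Q) p := charP_quot Q hQ p hp hQp
  have hfin : Finite (𝓞 N ⧸ Q) := Ideal.finiteQuotientOfFreeOfNeBot Q hQ0
  have hψ : ∀ w : 𝓞 N, Ideal.Quotient.mk Q w = 0 ↔ w ∈ Q := fun w =>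
    Ideal.Quotient.eq_zero_iff_mem
  have hF := fun {P : Ideal (𝓞 K)} (hP : P ∈ above p K) =>
    typ_facts (by omega) hcard hp Q hQ hQp (Ideal.Quotient.mk Q) hψ hs hP
  have h3 : ∀ P ∈ above p K, typ' (kk x P) = 3 ↔ hasOm (kk x P) := by
    intro P hP
    unfold typ'
    split_ifs with h
    · simp [h]
    · exact ⟨fun h1 => (hF hP).2.2.1 h1, fun h1 => absurd h1 h⟩
  refine ⟨fun h i j i' j' hij hij' => ?_, fun P => typ' (kk x P),
    bal_six hcard hp hpal Q hQ hQp (Ideal.Quotient.mk Q) hψ hs,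
    bal_three hcard hp hpal Q hQ hQp (Ideal.Quotient.mk Q) hψ hs,
    bal_two hcard hp hpal Q hQ hQp (Ideal.Quotient.mk Q) hψ hs, fun hp3 => ?_, fun P hP h => ?_,
    fun P hP h => ?_, fun P hP h hp3 => ?_, fun P hP => ?_⟩
  · rw [finsum_eq hp, finsum_eq hp]
    exact residues_symm hcard hp hpal Q hQ hQp (Ideal.Quotient.mk Q) hψ hs h i j i' j' hij hij'
  · have h4 := bal_om hcard hp hpal Q hQ hQp (Ideal.Quotient.mk Q) hψ hs
    have e : {P : Ideal (𝓞 K) | P ∈ above p K ∧ typ' (kk x P) = 3} =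
        {P : Ideal (𝓞 K) | P ∈ above p K ∧ (hasOm (kk x P) ∧ ¬ hasOdd (kk x P))} := by
      ext P
      refine and_congr_right fun hP => ?_
      rw [h3 P hP]
      exact ⟨fun h => ⟨h, (hF hP).2.2.2.2.1 h hp3⟩, fun h => h.1⟩
    rw [e]
    exact h4
  · rcases (hF hP).1 ((typ'_iff (by decide)).1 h).1 with ⟨a, b, hab, h1⟩ | h1
    · left
      by_contra hW
      obtain ⟨s, rfl, rfl⟩ : ∃ s : G3, s 0 = a ∧ s 1 = b := by
        clear h1
        revert a b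
        decide
      exact wief (by omega) hp2 hW P hP.1 hP.2 (hs.perm s) h1
    · exact Or.inr h1
  · exact (hF hP).2.1 ((typ'_iff (by decide)).1 h).1 ((typ'_iff (by decide)).1 h).2
  · exact (hF hP).2.2.2.1 ((h3 P hP).1 h) hp3
  · exact (h3 P hP).trans (hF hP).2.2.2.2.2

end Pool.Agent.W71.FS
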