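import Pool.Agent.W71.FS.Two2

/-!
# Primes above two of norm two or four: the structure of a solution
-/

set_option autoImplicit false

namespace Pool.Agent.W71.FS

open NumberField IsDedekindDomain Polynomial
open Pool.Agent.Y546.WQ

section

variable {p : ℕ} [Fact p.Prime] {E : Type} [Field E] [NumberField E]
  {K N : Type} [Field K] [NumberField K] [Field N] [NumberField N]

theorem card_le (hcard : Nat.card (K →+* N) = Module.finrank ℚ K) (Φ : (K →+* N) → Prop) :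
    Nat.card {τ : K →+* N // Φ τ} ≤ Module.finrank ℚ K := by
  rw [← hcard]
  exact Nat.card_le_card_of_injective (fun τ : {τ : K →+* N // Φ τ} => (τ : K →+* N))
    Subtype.val_injective

/-- the numbers of conjugates of `X` and `Y` in a prime above two are equal -/
theorem eq_count4 (c : Cyc p E)
    (i : E →+* N) (hD : Dn p E N i) (hcard : Nat.card (K →+* N) = Module.finrank ℚ K)
    (hm : 2 * Module.finrank ℚ K + 3 ≤ p) (hW : ¬ p ^ 2 ∣ 2 ^ (p - 1) - 1)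
    (hreg : (∀ j, Odd j → 3 ≤ j → j < 2 * Module.finrank ℚ K → Reg p j) ∨ PalK p K)
    (Q : Ideal (𝓞 N)) (hQ : Q.IsPrime) (hQ2 : (2 : 𝓞 N) ∈ Q)
    {X Y Z : 𝓞 K} (hs : Sol p K X Y Z) (h4 : Four X Y Z) :
    Nat.card {τ : K →+* N // RingOfIntegers.mapRingHom τ X ∈ Q} =
      Nat.card {τ : K →+* N // RingOfIntegers.mapRingHom τ Y ∈ Q} := by
  have hpp : p.Prime := Fact.out
  have hmpos := Module.finrank_pos (R := ℚ) (M := K)
  have hp2 : p ≠ 2 := by omega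
  obtain ⟨f, hdeg, hc0, hcm, hev, hf'⟩ := Y290.WQ.mainNORM K X Y
  have hf := hf' N hcard
  obtain ⟨b1, b2, b3, b4, b5⟩ := base Y290.WQ.mainNORM hcard hs f hdeg hc0 hcm hev
  obtain ⟨h1, h2, h3⟩ := fldG Y261.WQ.main hp2 c i hD X Y Z hs.X0 hs.Y0 hs.Z0 hs.eq
    (fun P hP hpP => (hs.cp P hP hpP).2.2) f hf
  have q3 := loc4 hcard Q hQ hQ2 h4 f hf
  have q4 : ∀ P : Ideal (𝓞 E), P.IsPrime → (2 : 𝓞 E) ∈ P → ∀ w : 𝓞 E,
      (w : E) = aeval c.z f → w ∉ P := fun P hP h2P w hw =>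
    cop4 (by omega) c i h4 f hf P hP h2P w hw
  have la : Nat.card {τ : K →+* N // RingOfIntegers.mapRingHom τ X ∈ Q} ≤ Module.finrank ℚ K :=
    card_le hcard _
  have lb : Nat.card {τ : K →+* N // RingOfIntegers.mapRingHom τ Y ∈ Q} ≤ Module.finrank ℚ K :=
    card_le hcard _
  set a := Nat.card {τ : K →+* N // RingOfIntegers.mapRingHom τ X ∈ Q}
  set b := Nat.card {τ : K →+* N // RingOfIntegers.mapRingHom τ Y ∈ Q}
  obtain ⟨s, n, hn, hsn⟩ := exists_odd_part (f.eval 1) h2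
  have hpn : ¬ (p : ℤ) ∣ n := fun h => b5 (hsn ▸ dvd_mul_of_dvd_right h _)
  obtain ⟨w, hwz, hw⟩ := exists_zint c
  have hΛ : algebraMap (𝓞 E) E (aeval w f) = aeval c.z f := by
    have hwz' : algebraMap (𝓞 E) E w = c.z := hwz
    rw [← hwz']
    exact (aeval_algebraMap_apply E w f).symm
  obtain ⟨g, hg, k, hk⟩ := relG aUNIT hp2 c f n hpn b5 h1 (by
    intro P
    by_cases h2P : ((2 : ℕ) : 𝓞 E) ∈ P.asIdeal
    · refine ⟨0, ?_⟩
      have h2' : (2 : 𝓞 E) ∈ P.asIdeal := by exact_mod_cast h2P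
      have hn1 : P.valuation E ((n : ℤ) : E) = 1 := by
        have := val_one P ((n : ℤ) : 𝓞 E) (int_notMem P.asIdeal P.isPrime 2 Nat.prime_two h2P n
          (by
            rw [Int.odd_iff] at hn
            intro h
            push_cast at h
            omega))
        simpa using this
      rw [hn1, mul_zero, WithZero.exp_zero, mul_one, ← hΛ]
      exact val_one P _ (q4 P.asIdeal P.isPrime h2' _ hΛ)
    · obtain ⟨m, hm⟩ := h3 P
      refine ⟨m, ?_⟩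
      rw [hm, hsn]
      congr 1
      push_cast
      rw [map_mul, map_pow]
      have h3 : P.valuation E (2 : E) = 1 := by
        have h10 : (((2 : ℕ) : 𝓞 E) : E) = 2 := map_natCast (algebraMap (𝓞 E) E) 2
        have := val_one P ((2 : ℕ) : 𝓞 E) h2P
        rwa [h10] at this
      rw [h3, one_pow, one_mul])
  obtain ⟨r, hr, hdv⟩ := Y815.WQ.mainLAMG p hp2 E c f n hpn b5 g hg k hk
  have q5 := (Y261.WQ.mainTWOG p hp2 E c f n hn (Module.finrank ℚ K) a b hdeg q3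
    (fun P hP h2P w hw => q4 P hP h2P w hw) g hg k hk).resolve_right hW
  have hs0 : Pool.Agent.Y546.WQ.hs p ≠ 0 := fun h => hW (Y388.WQ.HAR.main p hp2 h)
  rcases hreg with hreg | hpal
  · have hrel := rel_of_sol aUNITA Y261.WQ.main Y919.WQ.mainLAMA Y290.WQ.mainNORM c i hD hcard hp2
      hs f hdeg hc0 hcm hev hf
    have hab : b ≤ Module.finrank ℚ K + a := by omega
    obtain ⟨q6, -⟩ := polAA Y655.WQ.mainCORE Y275.WQ.mainCOREA p (Module.finrank ℚ K)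
      (Module.finrank ℚ K + a - b) k _ r hm
      (by omega) b1 b2 b3 b4 hr hdv (by
        rw [q5, Nat.cast_sub hab]
        push_cast
        ring) hs0 hrel hreg
    omega
  · have hpal1 := hpal X Y Z hs f hdeg hc0 hcm hev hf'
    have q6 := Y468.WQ.mainSYM p (Module.finrank ℚ K) k _ r hp2 b1 hpal1 hr hdv
    have q7 : ((a : ZMod p) - b) * Pool.Agent.Y546.WQ.hs p = 0 := by
      linear_combination q6 - q5
    have q8 : (a : ZMod p) = b := sub_eq_zero.1 ((mul_eq_zero.1 q7).resolve_right hs0)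
    have h := (ZMod.natCast_eq_natCast_iff a b p).1 q8
    exact Nat.ModEq.eq_of_lt_of_lt h (by omega) (by omega)

end

/-- all primes above two have norm two or four -/
theorem four_of {p : ℕ} (hp : p.Prime) (h5 : 5 ≤ p) {K : Type} [Field K] [NumberField K]
    (hK2 : ∀ P ∈ above 2 K, Nat.card (𝓞 K ⧸ P) = 2 ∨ Nat.card (𝓞 K ⧸ P) = 4)
    {X Y Z : 𝓞 K} (h : X ^ p + Y ^ p + Z ^ p = 0)
    (h2 : ∀ P : Ideal (𝓞 K), P.IsPrime → (2 : 𝓞 K) ∈ P → ¬ (X ∈ P ∧ Y ∈ P ∧ Z ∈ P)) :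
    Four X Y Z := by
  intro P hP h2P
  have hP0 : P ≠ ⊥ := by
    rintro rfl
    rw [Ideal.mem_bot] at h2P
    exact two_ne_zero h2P
  have hPm : P.IsMaximal := hP.isMaximal hP0
  let _ : Field (𝓞 K ⧸ P) := Ideal.Quotient.field P
  have hfin : Finite (𝓞 K ⧸ P) := Ideal.finiteQuotientOfFreeOfNeBot P hP0
  have hft : Fintype (𝓞 K ⧸ P) := Fintype.ofFinite _
  have h4 : ∀ w : 𝓞 K, w ^ 4 - w ∈ P := by
    intro w
    have h1 := FiniteField.pow_card (Ideal.Quotient.mk P w)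
    rw [← Nat.card_eq_fintype_card] at h1
    rw [← Ideal.Quotient.eq_zero_iff_mem, map_sub, map_pow]
    rcases hK2 P ⟨hP, by exact_mod_cast h2P⟩ with hc | hc
    · rw [hc] at h1
      have h3 : (Ideal.Quotient.mk P w) ^ 4 = Ideal.Quotient.mk P w := by
        calc (Ideal.Quotient.mk P w) ^ 4 = ((Ideal.Quotient.mk P w) ^ 2) ^ 2 := by ring
          _ = _ := by rw [h1, h1]
      rw [h3, sub_self]
    · rw [hc] at h1
      rw [h1, sub_self]
  exact ⟨h4, lin_2 hp h5 P hP h2P h4 h, h2 P hP h2P⟩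

/-- the structure of a solution at the primes above two -/
theorem mainTwo4 {p : ℕ} (hp : p.Prime) {K : Type} [Field K] [NumberField K]
    (hreg : (2 * Module.finrank ℚ K + 3 ≤ p ∧ ∀ k ∈ irr p, k + 2 * Module.finrank ℚ K < p) ∨
      Module.finrank ℚ K * (((irr p).card + 1) * ((irr p).card + 2)) + 3 ≤ p)
    (hW : ¬ p ^ 2 ∣ 2 ^ (p - 1) - 1)
    (hK2 : ∀ P ∈ above 2 K, Nat.card (𝓞 K ⧸ P) = 2 ∨ Nat.card (𝓞 K ⧸ P) = 4)
    {X Y Z : 𝓞 K} (hs : Sol p K X Y Z)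
    (h2 : ∀ P : Ideal (𝓞 K), P.IsPrime → (2 : 𝓞 K) ∈ P → ¬ (X ∈ P ∧ Y ∈ P ∧ Z ∈ P)) :
    ∑ᶠ P ∈ {P | P ∈ above 2 K ∧ X ∈ P}, ldeg P = ∑ᶠ P ∈ {P | P ∈ above 2 K ∧ Y ∈ P}, ldeg P ∧
    ∑ᶠ P ∈ {P | P ∈ above 2 K ∧ Y ∈ P}, ldeg P = ∑ᶠ P ∈ {P | P ∈ above 2 K ∧ Z ∈ P}, ldeg P ∧
    (∀ P ∈ above 2 K, ¬ (X ∈ P ∧ Y ∈ P) ∧ ¬ (Y ∈ P ∧ Z ∈ P) ∧ ¬ (Z ∈ P ∧ X ∈ P)) ∧
    (∀ P ∈ above 2 K, Nat.card (𝓞 K ⧸ P) = 2 → X ∈ P ∨ Y ∈ P ∨ Z ∈ P) := by
  classical
  have hfact : Fact p.Prime := ⟨hp⟩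
  have hm := Module.finrank_pos (R := ℚ) (M := K)
  have h5 : 2 * Module.finrank ℚ K + 3 ≤ p := by
    rcases hreg with h | h
    · exact h.1
    · have e : 2 ≤ ((irr p).card + 1) * ((irr p).card + 2) := by nlinarith [(irr p).card.zero_le]
      have := Nat.mul_le_mul_left (Module.finrank ℚ K) e
      omega
  have hp2 : p ≠ 2 := by omega
  obtain ⟨E, _, _, ⟨c⟩⟩ := Y978.WQ.main p hp2
  obtain ⟨N, _, _, i, hcard, hD⟩ := Y258.WQ.mainDOWNG p E c K (by omega)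
  have hD' : Dn p E N i := hD
  have hreg' : (∀ j, Odd j → 3 ≤ j → j < 2 * Module.finrank ℚ K → Reg p j) ∨ PalK p K := by
    rcases hreg with h | h
    · refine Or.inl fun j hj h3j hjm => ?_
      apply reg_of Y61.WQ.mainBER j hj h3j (by omega)
      intro hk
      have := h.2 _ hk
      omega
    · exact Or.inr (palK aUNITA Y261.WQ.main Y919.WQ.mainLAMA Y290.WQ.mainNORM
        (Y510.WQ.mainPOLBA Y275.WQ.mainCOREA)
        (Y590.WQ.mainPOLE Y780.WQ.mainPOLE1 Y286.WQ.mainPOLE2) Y61.WQ.mainBER c i hD' hcard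
        (Or.inr h))
  obtain ⟨Q, hQ, hQ2⟩ := exists_above (K := N) 2 Nat.prime_two
  have hQ2' : (2 : 𝓞 N) ∈ Q := by exact_mod_cast hQ2
  have h4 := four_of hp (by omega) hK2 hs.eq h2
  have e1 := eq_count4 c i hD' hcard h5 hW hreg' Q hQ hQ2' hs h4
  have e2 := eq_count4 c i hD' hcard h5 hW hreg' Q hQ hQ2' hs.rot h4.rot
  -- sums of local degrees
  have hsum : ∀ W : 𝓞 K, ∑ᶠ P ∈ {P | P ∈ above 2 K ∧ W ∈ P}, ldeg P =
      Nat.card {τ : K →+* N // RingOfIntegers.mapRingHom τ W ∈ Q} := by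
    intro W
    rw [finsum_eq Nat.prime_two, sum_ldeg_filter hcard Nat.prime_two Q hQ hQ2,
      Nat.card_eq_fintype_card, Fintype.card_subtype]
    rfl
  refine ⟨(hsum X).trans (e1.trans (hsum Y).symm), (hsum Y).trans (e2.trans (hsum Z).symm),
    fun P hP => ?_, fun P hP hc => ?_⟩
  · obtain ⟨-, h6, h7⟩ := h4 P hP.1 (by exact_mod_cast hP.2)
    refine ⟨?_, ?_, ?_⟩
    · rintro ⟨hX, hY⟩
      exact h7 ⟨hX, hY, (Ideal.add_mem_iff_right P (P.add_mem hX hY)).1 h6⟩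
    · rintro ⟨hY, hZ⟩
      refine h7 ⟨?_, hY, hZ⟩
      have h8 : X = (X + Y + Z) - Y - Z := by ring
      rw [h8]
      exact P.sub_mem (P.sub_mem h6 hY) hZ
    · rintro ⟨hZ, hX⟩
      refine h7 ⟨hX, ?_, hZ⟩
      have h8 : Y = (X + Y + Z) - X - Z := by ring
      rw [h8]
      exact P.sub_mem (P.sub_mem h6 hX) hZ
  · by_contra hcon
    push Not at hcon
    obtain ⟨hX, hY, hZ⟩ := hcon
    obtain ⟨-, h6, -⟩ := h4 P hP.1 (by exact_mod_cast hP.2)
    have w1 := (Y67.WQ.two_el P hc X).resolve_left hX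
    have w2 := (Y67.WQ.two_el P hc Y).resolve_left hY
    have w3 := (Y67.WQ.two_el P hc Z).resolve_left hZ
    have h2P : (2 : 𝓞 K) ∈ P := by exact_mod_cast hP.2
    apply one_notMem P hP.1
    have e : (1 : 𝓞 K) = (X + Y + Z) - (X - 1) - (Y - 1) - (Z - 1) - 2 := by ring
    rw [e]
    exact P.sub_mem (P.sub_mem (P.sub_mem (P.sub_mem h6 w1) w2) w3) h2P

end Pool.Agent.W71.FS
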