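import Pool.Agent.W71.FS.Deg
import Pool.Agent.Y546.WQ.Cas2

/-!
# Symmetry of the residues of a solution at the primes above `p`
-/

set_option autoImplicit false

namespace Pool.Agent.W71.FS

open NumberField IsDedekindDomain Polynomial
open Pool.Agent.Y546.WQ

/-- the permutations of three letters -/
abbrev G3 := Equiv.Perm (Fin 3)

/-- the annihilator of an element -/
def ann {L : Type} [Field L] (u : L) : Set ℤ[X] := {h | aeval u h = 0}

/-- a solution in the first case, as a function -/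
def SolF (p : ℕ) (K : Type) [Field K] [NumberField K] (x : Fin 3 → 𝓞 K) : Prop :=
  Sol p K (x 0) (x 1) (x 2)

theorem solF_iff {p : ℕ} {K : Type} [Field K] [NumberField K] {x : Fin 3 → 𝓞 K} :
    SolF p K x ↔ (∀ i, x i ≠ 0) ∧ ∑ i, x i ^ p = 0 ∧
      ∀ P : Ideal (𝓞 K), P.IsPrime → ((p : ℕ) : 𝓞 K) ∈ P → ∀ i, x i ∉ P := by
  constructor
  · intro h
    refine ⟨?_, ?_, ?_⟩
    · intro i
      fin_cases i
      · exact h.X0
      · exact h.Y0
      · exact h.Z0
    · rw [Fin.sum_univ_three]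
      exact h.eq
    · intro P hP hpP i
      obtain ⟨h1, h2, h3⟩ := h.cp P hP hpP
      fin_cases i
      · exact h1
      · exact h2
      · exact h3
  · rintro ⟨h1, h2, h3⟩
    rw [Fin.sum_univ_three] at h2
    exact ⟨h1 0, h1 1, h1 2, h2, fun P hP hpP => ⟨h3 P hP hpP 0, h3 P hP hpP 1, h3 P hP hpP 2⟩⟩

theorem SolF.perm {p : ℕ} {K : Type} [Field K] [NumberField K] {x : Fin 3 → 𝓞 K}
    (h : SolF p K x) (σ : G3) : SolF p K (x ∘ σ) := by
  rw [solF_iff] at h ⊢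
  refine ⟨fun i => h.1 _, ?_, fun P hP hpP i => h.2.2 P hP hpP _⟩
  rw [← h.2.1]
  exact Equiv.sum_comp σ fun i => x i ^ p

section

variable {p : ℕ} [Fact p.Prime] {K N : Type} [Field K] [NumberField K] [Field N] [NumberField N]

/-- the roots of a product of linear polynomials -/
theorem roots_lin {ι F : Type} [Fintype ι] [Field F] (a b : ι → F) (hb : ∀ i, b i ≠ 0) :
    (∏ i, (C (a i) + X * C (b i))).roots = Finset.univ.val.map fun i => -(a i / b i) := by
  have h1 : ∀ i, C (a i) + X * C (b i) = C (b i) * (X - C (-(a i / b i))) := by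
    intro i
    rw [C_neg, sub_neg_eq_add, mul_add, ← C_mul, mul_div_cancel₀ _ (hb i)]
    ring
  have h2 : ∏ i, (C (a i) + X * C (b i)) ≠ 0 := by
    rw [Finset.prod_ne_zero_iff]
    intro i _
    rw [h1]
    exact mul_ne_zero (C_ne_zero.2 (hb i)) (X_sub_C_ne_zero _)
  rw [roots_prod _ _ h2]
  have h3 : ∀ i, (C (a i) + X * C (b i)).roots = {-(a i / b i)} := by
    intro i
    rw [h1, roots_C_mul _ (hb i), roots_X_sub_C]
  simp_rw [h3]
  exact Multiset.bind_singleton _ _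

/-- the multiset of residues is stable under inversion -/
theorem inv_residues (hcard : Nat.card (K →+* N) = Module.finrank ℚ K)
    (hpal : PalK p K) (Q : Ideal (𝓞 N)) (hQ : Q.IsPrime) (hQp : ((p : ℕ) : 𝓞 N) ∈ Q)
    {L : Type} [Field L] [CharP L p] (ψ : 𝓞 N →+* L) (hψ : ∀ w, ψ w = 0 ↔ w ∈ Q)
    {X Y Z : 𝓞 K} (hs : Sol p K X Y Z) :
    (Finset.univ.val.map fun τ : K →+* N => ψ (RingOfIntegers.mapRingHom τ X) /
      ψ (RingOfIntegers.mapRingHom τ Y)) =
    (Finset.univ.val.map fun τ : K →+* N => ψ (RingOfIntegers.mapRingHom τ Y) /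
      ψ (RingOfIntegers.mapRingHom τ X)) := by
  classical
  let F := AlgebraicClosure L
  have hchF : CharP F p := charP_of_injective_algebraMap (algebraMap L F).injective p
  let ψ' : 𝓞 N →+* F := (algebraMap L F).comp ψ
  have hψ' : ∀ w : 𝓞 N, ψ' w = algebraMap L F (ψ w) := fun w => rfl
  have hψ0 : ∀ w : 𝓞 N, ψ' w = 0 ↔ w ∈ Q := by
    intro w
    rw [hψ', map_eq_zero_iff _ (algebraMap L F).injective, hψ]
  have hP : ∀ τ : K →+* N, (Q.comap (RingOfIntegers.mapRingHom τ)).IsPrime := fun τ => hQ.comap _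
  have hPp : ∀ τ : K →+* N, ((p : ℕ) : 𝓞 K) ∈ Q.comap (RingOfIntegers.mapRingHom τ) := by
    intro τ
    rw [Ideal.mem_comap, map_natCast]
    exact hQp
  have hX : ∀ τ : K →+* N, ψ' (RingOfIntegers.mapRingHom τ X) ≠ 0 := fun τ h =>
    (hs.cp _ (hP τ) (hPp τ)).1 ((hψ0 _).1 h)
  have hY : ∀ τ : K →+* N, ψ' (RingOfIntegers.mapRingHom τ Y) ≠ 0 := fun τ h =>
    (hs.cp _ (hP τ) (hPp τ)).2.1 ((hψ0 _).1 h)
  have hA : ∏ τ : K →+* N, (C (ψ' (RingOfIntegers.mapRingHom τ X)) +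
      Polynomial.X * C (ψ' (RingOfIntegers.mapRingHom τ Y))) =
      ∏ τ : K →+* N, (C (ψ' (RingOfIntegers.mapRingHom τ Y)) +
      Polynomial.X * C (ψ' (RingOfIntegers.mapRingHom τ X))) := by
    apply Polynomial.eq_of_infinite_eval_eq
    refine Set.Infinite.mono ?_ (Set.Finite.infinite_compl (Set.finite_singleton (0 : F)))
    intro t ht
    have h1 := pal_eval Pool.Agent.Y290.WQ.mainNORM hcard hpal ψ' hs t ht
    simp only [Set.mem_ofPred_eq, eval_prod, eval_add, eval_mul, eval_C, eval_X]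
    exact h1
  have h2 := congrArg Polynomial.roots hA
  rw [roots_lin _ _ hY, roots_lin _ _ hX] at h2
  have h3 := congrArg (Multiset.map fun w : F => -w) h2
  rw [Multiset.map_map, Multiset.map_map] at h3
  apply Multiset.map_injective (algebraMap L F).injective
  rw [Multiset.map_map, Multiset.map_map]
  have e : ∀ U V : 𝓞 K, (⇑(algebraMap L F) ∘ fun τ : K →+* N =>
      ψ (RingOfIntegers.mapRingHom τ U) / ψ (RingOfIntegers.mapRingHom τ V)) =
      ((fun w : F => -w) ∘ fun τ : K →+* N => -(ψ' (RingOfIntegers.mapRingHom τ U) /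
        ψ' (RingOfIntegers.mapRingHom τ V))) := by
    intro U V
    funext τ
    show algebraMap L F (ψ (RingOfIntegers.mapRingHom τ U) / ψ (RingOfIntegers.mapRingHom τ V)) =
      -(-(ψ' (RingOfIntegers.mapRingHom τ U) / ψ' (RingOfIntegers.mapRingHom τ V)))
    have e1 : ∀ w : F, -(-w) = w := fun w => neg_neg w
    rw [e1, map_div₀]
    rfl
  rw [e, e]
  exact h3

/-- the annihilators of the six ratios of a solution, as a function on the permutations -/
def kf {L : Type} [Field L] (ψ : 𝓞 N →+* L) (x : Fin 3 → 𝓞 K) (τ : K →+* N) (g : G3) :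
    Set ℤ[X] :=
  ann (ψ (RingOfIntegers.mapRingHom τ (x (g 0))) / ψ (RingOfIntegers.mapRingHom τ (x (g 1))))

theorem kf_comp {L : Type} [Field L] (ψ : 𝓞 N →+* L) (x : Fin 3 → 𝓞 K) (τ : K →+* N)
    (σ : G3) : kf ψ (x ∘ σ) τ = fun g => kf ψ x τ (σ * g) := rfl

/-- the function of the ratio `u = t 0 / t 1` which gives the annihilators of all ratios -/
def uf {L : Type} [Field L] (u : L) (g : G3) : Set ℤ[X] :=
  ann ((![u, 1, -1 - u] : Fin 3 → L) (g 0) / (![u, 1, -1 - u] : Fin 3 → L) (g 1))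

theorem residue_facts (Q : Ideal (𝓞 N)) (hQ : Q.IsPrime) (hQp : ((p : ℕ) : 𝓞 N) ∈ Q)
    {L : Type} [Field L] (ψ : 𝓞 N →+* L) (hψ : ∀ w, ψ w = 0 ↔ w ∈ Q)
    {x : Fin 3 → 𝓞 K} (hs : SolF p K x) (τ : K →+* N) :
    (∀ i, ψ (RingOfIntegers.mapRingHom τ (x i)) ≠ 0) ∧
    ψ (RingOfIntegers.mapRingHom τ (x 0)) + ψ (RingOfIntegers.mapRingHom τ (x 1)) +
      ψ (RingOfIntegers.mapRingHom τ (x 2)) = 0 := by
  have hpp : p.Prime := Fact.out
  have hP : (Q.comap (RingOfIntegers.mapRingHom τ)).IsPrime := hQ.comap _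
  have hPp : ((p : ℕ) : 𝓞 K) ∈ Q.comap (RingOfIntegers.mapRingHom τ) := by
    rw [Ideal.mem_comap, map_natCast]
    exact hQp
  refine ⟨fun i h => (solF_iff.1 hs).2.2 _ hP hPp i ((hψ _).1 h), ?_⟩
  rw [← map_add, ← map_add, ← map_add, ← map_add, hψ]
  exact lin_p hpp _ hP hPp hs.eq

theorem kf_eq (Q : Ideal (𝓞 N)) (hQ : Q.IsPrime) (hQp : ((p : ℕ) : 𝓞 N) ∈ Q)
    {L : Type} [Field L] (ψ : 𝓞 N →+* L) (hψ : ∀ w, ψ w = 0 ↔ w ∈ Q)
    {x : Fin 3 → 𝓞 K} (hs : SolF p K x) (τ : K →+* N) :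
    kf ψ x τ = uf (ψ (RingOfIntegers.mapRingHom τ (x 0)) /
      ψ (RingOfIntegers.mapRingHom τ (x 1))) := by
  obtain ⟨h1, h2⟩ := residue_facts Q hQ hQp ψ hψ hs τ
  set t : Fin 3 → L := fun i => ψ (RingOfIntegers.mapRingHom τ (x i)) with ht
  have h3 : ∀ i, t i = t 1 * (![t 0 / t 1, 1, -1 - t 0 / t 1] : Fin 3 → L) i := by
    intro i
    have h10 : t 1 ≠ 0 := h1 1
    fin_cases i
    · show t 0 = t 1 * (t 0 / t 1)
      field_simp
    · show t 1 = t 1 * 1
      ring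
    · show t 2 = t 1 * (-1 - t 0 / t 1)
      field_simp
      linear_combination h2
  funext g
  show ann (t (g 0) / t (g 1)) = _
  rw [h3 (g 0), h3 (g 1), mul_div_mul_left _ _ (h1 1)]
  rfl

/-- the distribution of the annihilators -/
noncomputable def dist {L : Type} [Field L] (ψ : 𝓞 N →+* L) (x : Fin 3 → 𝓞 K) :
    Multiset (G3 → Set ℤ[X]) :=
  Finset.univ.val.map fun τ : K →+* N => kf ψ x τ

theorem dist_comp {L : Type} [Field L] (ψ : 𝓞 N →+* L) (x : Fin 3 → 𝓞 K) (σ : G3) :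
    dist ψ (x ∘ σ) = (dist ψ x).map fun k g => k (σ * g) := by
  unfold dist
  rw [Multiset.map_map]
  rfl

theorem dist_swap (hcard : Nat.card (K →+* N) = Module.finrank ℚ K)
    (hpal : PalK p K) (Q : Ideal (𝓞 N)) (hQ : Q.IsPrime) (hQp : ((p : ℕ) : 𝓞 N) ∈ Q)
    {L : Type} [Field L] [CharP L p] (ψ : 𝓞 N →+* L) (hψ : ∀ w, ψ w = 0 ↔ w ∈ Q)
    {x : Fin 3 → 𝓞 K} (hs : SolF p K x) :
    dist ψ (x ∘ Equiv.swap (0 : Fin 3) 1) = dist ψ x := by
  have h1 := inv_residues hcard hpal Q hQ hQp ψ hψ hs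
  have h2 : dist ψ x = (Finset.univ.val.map fun τ : K →+* N =>
      ψ (RingOfIntegers.mapRingHom τ (x 0)) / ψ (RingOfIntegers.mapRingHom τ (x 1))).map uf := by
    unfold dist
    rw [Multiset.map_map]
    refine Multiset.map_congr rfl fun τ _ => ?_
    exact kf_eq Q hQ hQp ψ hψ hs τ
  have h3 : dist ψ (x ∘ Equiv.swap (0 : Fin 3) 1) = (Finset.univ.val.map fun τ : K →+* N =>
      ψ (RingOfIntegers.mapRingHom τ (x 1)) / ψ (RingOfIntegers.mapRingHom τ (x 0))).map uf := by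
    unfold dist
    rw [Multiset.map_map]
    refine Multiset.map_congr rfl fun τ _ => ?_
    exact kf_eq Q hQ hQp ψ hψ (hs.perm (Equiv.swap (0 : Fin 3) 1)) τ
  rw [h2, h3, h1]

/-- the distribution of the annihilators is invariant under all permutations -/
theorem dist_perm (hcard : Nat.card (K →+* N) = Module.finrank ℚ K)
    (hpal : PalK p K) (Q : Ideal (𝓞 N)) (hQ : Q.IsPrime) (hQp : ((p : ℕ) : 𝓞 N) ∈ Q)
    {L : Type} [Field L] [CharP L p] (ψ : 𝓞 N →+* L) (hψ : ∀ w, ψ w = 0 ↔ w ∈ Q) (σ : G3) :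
    ∀ {x : Fin 3 → 𝓞 K}, SolF p K x → dist ψ (x ∘ σ) = dist ψ x := by
  have hsw : ∀ i j : Fin 3, i ≠ j → ∀ {x : Fin 3 → 𝓞 K}, SolF p K x →
      dist ψ (x ∘ Equiv.swap i j) = dist ψ x := by
    intro i j hij x hx
    obtain ⟨c, hc⟩ : ∃ c : G3, Equiv.swap i j = c * Equiv.swap (0 : Fin 3) 1 * c⁻¹ := by
      revert i j
      decide
    have h1 := dist_swap hcard hpal Q hQ hQp ψ hψ (hx.perm c)
    have e1 : x ∘ Equiv.swap i j = ((x ∘ c) ∘ Equiv.swap (0 : Fin 3) 1) ∘ (c⁻¹ : G3) := by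
      rw [hc]
      rfl
    rw [e1, dist_comp, h1, ← dist_comp]
    congr 1
    funext k
    simp
  induction σ using Equiv.Perm.swap_induction_on with
  | one => intro x _; rfl
  | swap_mul f i j hij ih =>
    intro x hx
    have e1 : x ∘ (Equiv.swap i j * f : G3) = (x ∘ Equiv.swap i j) ∘ f := rfl
    rw [e1, ih (hx.perm _), hsw i j hij hx]

end

end Pool.Agent.W71.FS
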