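import Pool.Agent.W71.FS.MainP
import Pool.Agent.Y67.WQ.COP

/-!
# Primes above two of norm two or four
-/

set_option autoImplicit false

namespace Pool.Agent.W71.FS

open NumberField IsDedekindDomain Polynomial
open Pool.Agent.Y546.WQ

/-- the roots of a product of linear or constant polynomials -/
theorem roots_lin' {ι F : Type} [Fintype ι] [Field F] [DecidableEq F] (a b : ι → F)
    (hab : ∀ i, ¬ (a i = 0 ∧ b i = 0)) :
    (∏ i, (C (a i) + X * C (b i))).roots =
      (Finset.univ.filter fun i => b i ≠ 0).val.map fun i => -(a i / b i) := by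
  have hι : DecidableEq ι := Classical.decEq ι
  have h0 : ∀ i, C (a i) + X * C (b i) ≠ 0 := by
    intro i h
    apply hab i
    have h1 := congrArg (fun q => coeff q 0) h
    have h2 := congrArg (fun q => coeff q 1) h
    simp only [coeff_add, coeff_C_zero, coeff_X_mul_zero, coeff_zero, add_zero] at h1
    simp only [coeff_add, coeff_X_mul, coeff_C_zero, coeff_zero, coeff_C_succ, zero_add] at h2
    exact ⟨h1, h2⟩
  have h2 : ∏ i, (C (a i) + X * C (b i)) ≠ 0 := Finset.prod_ne_zero_iff.2 fun i _ => h0 i
  rw [roots_prod _ _ h2]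
  have h3 : ∀ i, (C (a i) + X * C (b i)).roots =
      if b i ≠ 0 then {-(a i / b i)} else 0 := by
    intro i
    split_ifs with hb
    · have h1 : C (a i) + X * C (b i) = C (b i) * (X - C (-(a i / b i))) := by
        rw [C_neg, sub_neg_eq_add, mul_add, ← C_mul, mul_div_cancel₀ _ hb]
        ring
      rw [h1, roots_C_mul _ hb, roots_X_sub_C]
    · push Not at hb
      rw [hb, C_0, mul_zero, add_zero, roots_C]
  simp_rw [h3]
  induction (Finset.univ : Finset ι) using Finset.induction_on with
  | empty => simp
  | insert i s hi ih =>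
    rw [Finset.insert_val_of_notMem hi, Multiset.cons_bind, ih, Finset.filter_insert]
    split_ifs with hb
    · rw [Finset.insert_val_of_notMem (by simp [hi]), Multiset.map_cons]
      simp
    · simp

theorem reflect_lin {F : Type} [Field F] (a b : F) :
    Polynomial.reflect 1 (C a + X * C b) = C b + X * C a := by
  have h1 : C a + X * C b = C b * X ^ 1 + C a := by rw [pow_one]; ring
  rw [h1, reflect_add, reflect_C_mul_X_pow, ← mul_one (C a), ← pow_zero X, reflect_C_mul_X_pow,
    revAt_le le_rfl, revAt_le (by norm_num)]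
  simp

theorem reflect_prod_lin {ι F : Type} [Field F] (a b : ι → F) (s : Finset ι) :
    Polynomial.reflect s.card (∏ i ∈ s, (C (a i) + X * C (b i))) =
      ∏ i ∈ s, (C (b i) + X * C (a i)) := by
  classical
  have hdeg : ∀ i, (C (a i) + X * C (b i)).natDegree ≤ 1 := by
    intro i
    compute_degree
  induction s using Finset.induction_on with
  | empty => simp
  | insert i s hi ih =>
    have hd : (∏ i ∈ s, (C (a i) + X * C (b i))).natDegree ≤ s.card := by
      refine (natDegree_prod_le s (fun i => C (a i) + X * C (b i))).trans ?_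
      refine (Finset.sum_le_sum fun i _ => hdeg i).trans ?_
      simp
    rw [Finset.prod_insert hi, Finset.prod_insert hi, Finset.card_insert_of_notMem hi, add_comm,
      reflect_mul _ _ (hdeg i) hd, ih, reflect_lin]

/-- the product over a family of cube roots of unity which is stable under squaring -/
theorem prod_cube {ι F : Type} [Field F] (s : Finset ι) (r : ι → F) (h3 : ∀ i ∈ s, r i ^ 3 = 1)
    (hst : s.val.map r = s.val.map fun i => r i ^ 2) :
    ∏ i ∈ s, (C (r i) + X) = ∏ i ∈ s, (1 + C (r i) * X) := by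
  have h1 : ∏ i ∈ s, r i = 1 := by
    have h2 : ∏ i ∈ s, r i = ∏ i ∈ s, r i ^ 2 := congrArg Multiset.prod hst
    have h4 : ∏ i ∈ s, r i ≠ 0 := Finset.prod_ne_zero_iff.2 fun i hi h0 => by
      have := h3 i hi
      rw [h0] at this
      norm_num at this
    rw [Finset.prod_pow, pow_two] at h2
    exact (mul_right_cancel₀ h4 ((one_mul _).trans h2)).symm
  have h2 : ∀ i ∈ s, (1 + C (r i) * X) = C (r i) * (C (r i ^ 2) + X) := by
    intro i hi
    rw [mul_add, ← C_mul, ← pow_succ', h3 i hi, C_1]
  rw [Finset.prod_congr rfl h2, Finset.prod_mul_distrib]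
  have h4 : ∏ i ∈ s, C (r i) = C (∏ i ∈ s, r i) := (map_prod C _ _).symm
  rw [h4, h1, C_1, one_mul]
  have h5 := congrArg (fun M : Multiset F => (M.map fun u => C u + X).prod) hst
  simp only [Multiset.map_map] at h5
  exact h5

/-- the congruence modulo two of the norm polynomial and its reciprocal, if the residues of `x` and
`y` are zero or cube roots of unity -/
theorem pal_two {ι L : Type} [Fintype ι] [Field L] [CharP L 2] (x y : ι → L)
    (hxy : ∀ i, ¬ (x i = 0 ∧ y i = 0)) (hx3 : ∀ i, x i ≠ 0 → x i ^ 3 = 1)
    (hy3 : ∀ i, y i ≠ 0 → y i ^ 3 = 1) (f : ℤ[X])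
    (hf : f.map (Int.castRingHom L) = ∏ i, (C (x i) + X * C (y i))) :
    X ^ (Nat.card {i // y i = 0}) * f.map (Int.castRingHom L) =
      X ^ (Nat.card {i // x i = 0}) * (f.reflect (Fintype.card ι)).map (Int.castRingHom L) := by
  classical
  haveI : Fact (Nat.Prime 2) := ⟨Nat.prime_two⟩
  set s : Finset ι := Finset.univ.filter fun i => x i ≠ 0 ∧ y i ≠ 0 with hs
  have hneg : ∀ u : L, -u = u := fun u => CharTwo.neg_eq u
  -- Frobenius
  have hfrob : (f.map (Int.castRingHom L)).map (frobenius L 2) = f.map (Int.castRingHom L) := by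
    rw [Polynomial.map_map]
    congr 1
    exact RingHom.ext_int _ _
  have hU : (Finset.univ.filter fun i => y i ≠ 0).val.map (fun i => x i / y i) =
      (Finset.univ.filter fun i => y i ≠ 0).val.map fun i => (x i / y i) ^ 2 := by
    have h1 := roots_lin' x y hxy
    have h2 := roots_lin' (fun i => x i ^ 2) (fun i => y i ^ 2) (by
      rintro i ⟨h3, h4⟩
      exact hxy i ⟨(pow_eq_zero_iff two_ne_zero).1 h3, (pow_eq_zero_iff two_ne_zero).1 h4⟩)
    have h3 : ∏ i, (C (x i ^ 2) + X * C (y i ^ 2)) = ∏ i, (C (x i) + X * C (y i)) := by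
      rw [← hf, ← hfrob, hf, Polynomial.map_prod]
      refine Finset.prod_congr rfl fun i _ => ?_
      rw [Polynomial.map_add, Polynomial.map_mul, Polynomial.map_C, Polynomial.map_C,
        Polynomial.map_X, frobenius_def, frobenius_def]
    rw [h3, h1] at h2
    have h4 : (Finset.univ.filter fun i => y i ^ 2 ≠ 0) =
        Finset.univ.filter fun i => y i ≠ 0 := by
      ext i
      simp
    rw [h4] at h2
    simp only [hneg] at h2
    rw [h2]
    refine Multiset.map_congr rfl fun i _ => ?_
    rw [div_pow]
  have hst : s.val.map (fun i => x i / y i) = s.val.map fun i => (x i / y i) ^ 2 := by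
    have h1 := congrArg (Multiset.filter fun u : L => u ≠ 0) hU
    rw [Multiset.filter_map, Multiset.filter_map] at h1
    have h2 : s.val = Multiset.filter ((fun u : L => u ≠ 0) ∘ fun i => x i / y i)
        (Finset.univ.filter fun i => y i ≠ 0).val := by
      rw [hs, Finset.filter_val, Finset.filter_val, Multiset.filter_filter]
      refine Multiset.filter_congr fun i _ => ?_
      simp only [Function.comp, ne_eq, div_eq_zero_iff]
      tauto
    have h3 : s.val = Multiset.filter ((fun u : L => u ≠ 0) ∘ fun i => (x i / y i) ^ 2)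
        (Finset.univ.filter fun i => y i ≠ 0).val := by
      rw [h2]
      refine Multiset.filter_congr fun i _ => ?_
      simp only [Function.comp, ne_eq, pow_eq_zero_iff two_ne_zero]
    rw [← h2, ← h3] at h1
    exact h1
  -- the two products
  have hB : (f.reflect (Fintype.card ι)).map (Int.castRingHom L) =
      ∏ i, (C (y i) + X * C (x i)) := by
    rw [← reflect_map, hf, ← Finset.card_univ]
    exact reflect_prod_lin x y Finset.univ
  have hcard : ∀ z : ι → L, (X : L[X]) ^ (Nat.card {i // z i = 0}) =
      ∏ i, (if z i = 0 then X else 1) := by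
    intro z
    rw [Finset.prod_ite, Finset.prod_const_one, mul_one, Finset.prod_const,
      Nat.card_eq_fintype_card, Fintype.card_subtype]
  rw [hB, hf, hcard, hcard, ← Finset.prod_mul_distrib, ← Finset.prod_mul_distrib,
    ← Finset.prod_filter_mul_prod_filter_not Finset.univ (fun i => x i ≠ 0 ∧ y i ≠ 0),
    ← Finset.prod_filter_mul_prod_filter_not Finset.univ (fun i => x i ≠ 0 ∧ y i ≠ 0)
      (fun i => (if x i = 0 then X else 1) * (C (y i) + X * C (x i)))]
  congr 1
  · rw [← hs]
    have hmem : ∀ i ∈ s, x i ≠ 0 ∧ y i ≠ 0 := by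
      intro i hi
      rw [hs, Finset.mem_filter] at hi
      exact hi.2
    have e1 : ∀ i ∈ s, (if y i = 0 then X else 1) * (C (x i) + X * C (y i)) =
        C (y i) * (C (x i / y i) + X) := by
      intro i hi
      obtain ⟨h1, h2⟩ := hmem i hi
      rw [if_neg h2, one_mul, mul_add, ← C_mul, mul_div_cancel₀ _ h2]
      ring
    have e2 : ∀ i ∈ s, (if x i = 0 then X else 1) * (C (y i) + X * C (x i)) =
        C (y i) * (1 + C (x i / y i) * X) := by
      intro i hi
      obtain ⟨h1, h2⟩ := hmem i hi
      rw [if_neg h1, one_mul, mul_add, ← mul_assoc, ← C_mul, mul_div_cancel₀ _ h2]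
      ring
    rw [Finset.prod_congr rfl e1, Finset.prod_congr rfl e2, Finset.prod_mul_distrib,
      Finset.prod_mul_distrib]
    congr 1
    refine prod_cube s _ (fun i hi => ?_) hst
    obtain ⟨h1, h2⟩ := hmem i hi
    rw [div_pow, hx3 i h1, hy3 i h2, div_one]
  · refine Finset.prod_congr rfl fun i hi => ?_
    rw [Finset.mem_filter] at hi
    by_cases hx : x i = 0
    · have hy : y i ≠ 0 := fun hy => hxy i ⟨hx, hy⟩
      rw [if_neg hy, if_pos hx, hx, C_0]
      ring
    · have hy : y i = 0 := by
        by_contra hy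
        exact hi.2 ⟨hx, hy⟩
      rw [if_pos hy, if_neg hx, hy, C_0]
      ring

end Pool.Agent.W71.FS
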