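import Pool.Agent.W71.FS.Two

/-!
# Primes above two of norm two or four: counting
-/

set_option autoImplicit false

namespace Pool.Agent.W71.FS

open NumberField IsDedekindDomain Polynomial
open Pool.Agent.Y546.WQ

/-- the condition on the residues modulo a prime above two -/
def Four {K : Type} [Field K] [NumberField K] (X Y Z : 𝓞 K) : Prop :=
  ∀ P : Ideal (𝓞 K), P.IsPrime → (2 : 𝓞 K) ∈ P → (∀ w : 𝓞 K, w ^ 4 - w ∈ P) ∧
    X + Y + Z ∈ P ∧ ¬ (X ∈ P ∧ Y ∈ P ∧ Z ∈ P)

theorem Four.rot {K : Type} [Field K] [NumberField K] {X Y Z : 𝓞 K} (h : Four X Y Z) :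
    Four Y Z X := by
  intro P hP h2
  obtain ⟨h3, h4, h5⟩ := h P hP h2
  refine ⟨h3, ?_, fun h => h5 ⟨h.2.2, h.1, h.2.1⟩⟩
  have : Y + Z + X = X + Y + Z := by ring
  rw [this]
  exact h4

theorem cube_of {L : Type} [Field L] {u : L} (h4 : u ^ 4 - u = 0) (hu : u ≠ 0) : u ^ 3 = 1 := by
  have h1 : u * (u ^ 3 - 1) = 0 := by linear_combination h4
  exact sub_eq_zero.1 ((mul_eq_zero.1 h1).resolve_left hu)

section

variable {K N : Type} [Field K] [NumberField K] [Field N] [NumberField N]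

/-- the norm polynomial modulo two -/
theorem loc4 (hcard : Nat.card (K →+* N) = Module.finrank ℚ K) (Q : Ideal (𝓞 N))
    (hQ : Q.IsPrime) (h2Q : (2 : 𝓞 N) ∈ Q) {x y z : 𝓞 K} (h : Four x y z) (f : ℤ[X])
    (hf : f.map (Int.castRingHom (𝓞 N)) = nrmP K N x y) :
    X ^ (Nat.card {τ : K →+* N // RingOfIntegers.mapRingHom τ y ∈ Q}) *
        f.map (Int.castRingHom (ZMod 2)) =
      X ^ (Nat.card {τ : K →+* N // RingOfIntegers.mapRingHom τ x ∈ Q}) *
        (f.reflect (Module.finrank ℚ K)).map (Int.castRingHom (ZMod 2)) := by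
  classical
  have hQ0 : Q ≠ ⊥ := by
    rintro rfl
    rw [Ideal.mem_bot] at h2Q
    exact two_ne_zero h2Q
  have hQm : Q.IsMaximal := hQ.isMaximal hQ0
  let _ : Field (𝓞 N ⧸ Q) := Ideal.Quotient.field Q
  have hch : CharP (𝓞 N ⧸ Q) 2 := charP_quot Q hQ 2 Nat.prime_two (by exact_mod_cast h2Q)
  have hP : ∀ τ : K →+* N, (Q.comap (RingOfIntegers.mapRingHom τ)).IsPrime := fun τ => hQ.comap _
  have hP2 : ∀ τ : K →+* N, (2 : 𝓞 K) ∈ Q.comap (RingOfIntegers.mapRingHom τ) := by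
    intro τ
    rw [Ideal.mem_comap, map_ofNat]
    exact h2Q
  have h0 : ∀ w : 𝓞 N, Ideal.Quotient.mk Q w = 0 ↔ w ∈ Q := fun w =>
    Ideal.Quotient.eq_zero_iff_mem
  have hxy : ∀ τ : K →+* N, ¬ (Ideal.Quotient.mk Q (RingOfIntegers.mapRingHom τ x) = 0 ∧
      Ideal.Quotient.mk Q (RingOfIntegers.mapRingHom τ y) = 0) := by
    rintro τ ⟨h1, h2⟩
    rw [h0] at h1 h2
    obtain ⟨-, h3, h4⟩ := h _ (hP τ) (hP2 τ)
    apply h4
    refine ⟨h1, h2, ?_⟩
    rw [Ideal.mem_comap, map_add, map_add] at h3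
    exact (Ideal.add_mem_iff_right Q (Q.add_mem h1 h2)).1 h3
  have h3 : ∀ (w : 𝓞 K) (τ : K →+* N),
      Ideal.Quotient.mk Q (RingOfIntegers.mapRingHom τ w) ≠ 0 →
      Ideal.Quotient.mk Q (RingOfIntegers.mapRingHom τ w) ^ 3 = 1 := by
    intro w τ hw
    apply cube_of _ hw
    have h4 := (h _ (hP τ) (hP2 τ)).1 w
    rw [Ideal.mem_comap, ← h0, map_sub, map_sub, map_pow, map_pow] at h4
    exact h4
  have hf' : f.map (Int.castRingHom (𝓞 N ⧸ Q)) =
      ∏ τ : K →+* N, (C (Ideal.Quotient.mk Q (RingOfIntegers.mapRingHom τ x)) +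
        X * C (Ideal.Quotient.mk Q (RingOfIntegers.mapRingHom τ y))) := by
    have e1 : f.map (Int.castRingHom (𝓞 N ⧸ Q)) =
        (f.map (Int.castRingHom (𝓞 N))).map (Ideal.Quotient.mk Q) := by
      rw [Polynomial.map_map]
      congr 1
    rw [e1, hf, nrmP, Polynomial.map_prod]
    refine Finset.prod_congr rfl fun τ _ => ?_
    rw [Polynomial.map_add, Polynomial.map_mul, Polynomial.map_C, Polynomial.map_C,
      Polynomial.map_X]
  have key := pal_two _ _ hxy (h3 x) (h3 y) f hf'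
  have hm : Fintype.card (K →+* N) = Module.finrank ℚ K := by
    rw [← hcard, Nat.card_eq_fintype_card]
  rw [hm] at key
  have e : ∀ w : 𝓞 K, Nat.card {τ : K →+* N //
      Ideal.Quotient.mk Q (RingOfIntegers.mapRingHom τ w) = 0} =
      Nat.card {τ : K →+* N // RingOfIntegers.mapRingHom τ w ∈ Q} := by
    intro w
    exact Nat.card_congr (Equiv.subtypeEquivRight fun τ => h0 _)
  rw [e, e] at key
  have h20 : (2 : 𝓞 N ⧸ Q) = 0 := by
    have h := Ideal.Quotient.eq_zero_iff_mem.2 h2Q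
    rwa [map_ofNat] at h
  have key2 := Y809.WQ.map_two (F := 𝓞 N ⧸ Q) h20
    (f := X ^ (Nat.card {τ : K →+* N // RingOfIntegers.mapRingHom τ y ∈ Q}) * f)
    (g := X ^ (Nat.card {τ : K →+* N // RingOfIntegers.mapRingHom τ x ∈ Q}) *
      (f.reflect (Module.finrank ℚ K))) (by
        rw [Polynomial.map_mul, Polynomial.map_mul, Polynomial.map_pow, Polynomial.map_pow,
          Polynomial.map_X]
        exact key)
  rw [Polynomial.map_mul, Polynomial.map_mul, Polynomial.map_pow, Polynomial.map_pow,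
    Polynomial.map_X] at key2
  exact key2

/-- the norm of `x + z y` is prime to two -/
theorem cop4 {p : ℕ} [Fact p.Prime] (h5 : 5 ≤ p) {E : Type} [Field E] [NumberField E]
    (c : Cyc p E) (i : E →+* N) {x y z : 𝓞 K} (hxyz : Four x y z) (f : ℤ[X])
    (hf : f.map (Int.castRingHom (𝓞 N)) = nrmP K N x y) (P : Ideal (𝓞 E)) (hP : P.IsPrime)
    (hP2 : (2 : 𝓞 E) ∈ P) (w : 𝓞 E) (hw : (w : E) = aeval c.z f) : w ∉ P := by
  classical
  intro hwP
  have hpp : p.Prime := Fact.out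
  have hp2 : p ≠ 2 := by omega
  set j : 𝓞 E →+* 𝓞 N := RingOfIntegers.mapRingHom i with hj
  have hjinj : Function.Injective j := by
    intro a b hab
    have h1 : ((j a : 𝓞 N) : N) = j b := congrArg _ hab
    rw [hj, RingOfIntegers.mapRingHom_apply, RingOfIntegers.mapRingHom_apply] at h1
    exact RingOfIntegers.ext (i.injective h1)
  obtain ⟨Q, hQ, hQP⟩ := Y67.WQ.exists_over j hjinj P
  have hmem : ∀ a : 𝓞 E, a ∈ P → j a ∈ Q := by
    intro a ha
    rw [← hQP] at ha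
    exact ha
  obtain ⟨u, hu, hup⟩ := exists_zint c
  have hzp : IsPrimitiveRoot (j u) p := hup.map_of_injective hjinj
  set v : 𝓞 N := j u with hv
  have h2Q : (2 : 𝓞 N) ∈ Q := by
    have := hmem 2 hP2
    rwa [map_ofNat] at this
  have hvQ : v ∉ Q := by
    intro h
    apply one_notMem Q hQ
    rw [← hzp.pow_eq_one]
    exact Q.pow_mem_of_mem h p hpp.pos
  have hw' : w = aeval u f := by
    apply RingOfIntegers.ext
    rw [hw, ← hu]
    exact (Polynomial.aeval_algebraMap_apply E u f)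
  have hjw : j w = ∏ τ : K →+* N, (RingOfIntegers.mapRingHom τ x +
      v * RingOfIntegers.mapRingHom τ y) := by
    have h1 : j w = (f.map (Int.castRingHom (𝓞 N))).eval v := by
      rw [hw', Polynomial.aeval_def, Polynomial.hom_eval₂, Polynomial.eval_map,
        RingHom.ext_int (j.comp (algebraMap ℤ (𝓞 E))) (Int.castRingHom (𝓞 N))]
    rw [h1, hf, nrmP, Polynomial.eval_prod]
    refine Finset.prod_congr rfl fun τ _ => ?_
    rw [Polynomial.eval_add, Polynomial.eval_C, Polynomial.eval_mul, Polynomial.eval_X,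
      Polynomial.eval_C]
  have hprod := hmem w hwP
  rw [hjw, hQ.prod_mem_iff] at hprod
  obtain ⟨τ, -, hτ⟩ := hprod
  have hPτ : (Q.comap (RingOfIntegers.mapRingHom τ)).IsPrime := hQ.comap _
  have h2τ : (2 : 𝓞 K) ∈ Q.comap (RingOfIntegers.mapRingHom τ) := by
    rw [Ideal.mem_comap, map_ofNat]
    exact h2Q
  obtain ⟨h4, hsum, hnot⟩ := hxyz _ hPτ h2τ
  -- the residue field
  have hQ0 : Q ≠ ⊥ := by
    rintro rfl
    rw [Ideal.mem_bot] at h2Q
    exact two_ne_zero h2Q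
  have hQm : Q.IsMaximal := hQ.isMaximal hQ0
  let _ : Field (𝓞 N ⧸ Q) := Ideal.Quotient.field Q
  have hch : CharP (𝓞 N ⧸ Q) 2 := charP_quot Q hQ 2 Nat.prime_two (by exact_mod_cast h2Q)
  have h0 : ∀ w : 𝓞 N, Ideal.Quotient.mk Q w = 0 ↔ w ∈ Q := fun w =>
    Ideal.Quotient.eq_zero_iff_mem
  set a : 𝓞 N ⧸ Q := Ideal.Quotient.mk Q (RingOfIntegers.mapRingHom τ x) with ha
  set b : 𝓞 N ⧸ Q := Ideal.Quotient.mk Q (RingOfIntegers.mapRingHom τ y) with hb
  set e : 𝓞 N ⧸ Q := Ideal.Quotient.mk Q v with he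
  have he0 : e ≠ 0 := fun h => hvQ ((h0 v).1 h)
  have heq : a + e * b = 0 := by
    rw [ha, hb, he, ← map_mul, ← map_add, h0]
    exact hτ
  have hb0 : b ≠ 0 := by
    intro h
    have ha0 : a = 0 := by
      rw [h, mul_zero, add_zero] at heq
      exact heq
    rw [ha, h0] at ha0
    rw [hb, h0] at h
    apply hnot
    refine ⟨ha0, h, ?_⟩
    rw [Ideal.mem_comap, map_add, map_add] at hsum
    exact (Ideal.add_mem_iff_right Q (Q.add_mem ha0 h)).1 hsum
  have ha0 : a ≠ 0 := by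
    intro h
    rw [h, zero_add] at heq
    rcases mul_eq_zero.1 heq with h' | h'
    · exact he0 h'
    · exact hb0 h'
  have ha3 : a ^ 3 = 1 := by
    apply cube_of _ ha0
    have h6 := h4 x
    rw [Ideal.mem_comap, ← h0, map_sub, map_sub, map_pow, map_pow] at h6
    exact h6
  have hb3 : b ^ 3 = 1 := by
    apply cube_of _ hb0
    have h6 := h4 y
    rw [Ideal.mem_comap, ← h0, map_sub, map_sub, map_pow, map_pow] at h6
    exact h6
  have he3 : e ^ 3 = 1 := by
    have h7 : a = e * b := by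
      have h8 : a = -(e * b) := eq_neg_of_add_eq_zero_left heq
      rw [h8, CharTwo.neg_eq]
    rw [h7, mul_pow, hb3, mul_one] at ha3
    exact ha3
  have h6 : 1 - v ^ 3 ∈ Q := by
    rw [← h0, map_sub, map_one, map_pow, ← he, he3, sub_self]
  have h3p : Nat.Coprime 3 p := by
    rw [Nat.prime_three.coprime_iff_not_dvd]
    intro hd
    have := (Nat.prime_dvd_prime_iff_eq Nat.prime_three hpp).1 hd
    omega
  have h7 := p_mem_of_one_sub_mem (v ^ 3) (hzp.pow_of_coprime 3 h3p) Q h6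
  have h8 := int_notMem Q hQ 2 Nat.prime_two (by exact_mod_cast h2Q) (p : ℤ) (by
    intro h
    have h9 : 2 ∣ p := by exact_mod_cast h
    exact hp2 ((Nat.prime_dvd_prime_iff_eq Nat.prime_two hpp).1 h9).symm)
  exact h8 (by exact_mod_cast h7)

end

end Pool.Agent.W71.FS
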