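import Pool.Agent.W71.FS.Fro

/-!
# The four types of primes above `p`
-/

set_option autoImplicit false

namespace Pool.Agent.W71.FS

open NumberField IsDedekindDomain Polynomial
open Pool.Agent.Y546.WQ

section types

variable {W : Type}

/-- a transposition in the stabilizer -/
def hasOdd (k : G3 → W) : Prop := ∃ σ : G3, Equiv.Perm.sign σ = -1 ∧ sh σ k = k

/-- a cycle of length three in the stabilizer -/
def hasEven (k : G3 → W) : Prop := ∃ σ : G3, Equiv.Perm.sign σ = 1 ∧ σ ≠ 1 ∧ sh σ k = k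

theorem sh_conj {σ h : G3} {k : G3 → W} (hs : sh σ k = k) :
    sh (h * σ * h⁻¹) (sh h k) = sh h k := by
  rw [sh_sh]
  have e : h * σ * h⁻¹ * h = h * σ := by group
  rw [e, ← sh_sh, hs]

theorem hasOdd_sh {k : G3 → W} (h : G3) (hk : hasOdd k) : hasOdd (sh h k) := by
  obtain ⟨σ, h1, h2⟩ := hk
  refine ⟨h * σ * h⁻¹, ?_, sh_conj h2⟩
  rw [map_mul, map_mul, h1, Equiv.Perm.sign_inv]
  rcases Int.units_eq_one_or (Equiv.Perm.sign h) with h3 | h3 <;> rw [h3] <;> decide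

theorem hasEven_sh {k : G3 → W} (h : G3) (hk : hasEven k) : hasEven (sh h k) := by
  obtain ⟨σ, h1, h3, h2⟩ := hk
  refine ⟨h * σ * h⁻¹, ?_, ?_, sh_conj h2⟩
  · rw [map_mul, map_mul, h1, Equiv.Perm.sign_inv]
    rcases Int.units_eq_one_or (Equiv.Perm.sign h) with h3 | h3 <;> rw [h3] <;> decide
  · intro h4
    apply h3
    rw [mul_inv_eq_one] at h4
    calc σ = h⁻¹ * (h * σ) := by group
      _ = 1 := by rw [h4, inv_mul_cancel]

theorem hasOdd_sh_iff {k : G3 → W} (h : G3) : hasOdd (sh h k) ↔ hasOdd k := by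
  refine ⟨fun hk => ?_, hasOdd_sh h⟩
  have := hasOdd_sh h⁻¹ hk
  rwa [sh_sh, inv_mul_cancel, sh_one] at this

theorem hasEven_sh_iff {k : G3 → W} (h : G3) : hasEven (sh h k) ↔ hasEven k := by
  refine ⟨fun hk => ?_, hasEven_sh h⟩
  have := hasEven_sh h⁻¹ hk
  rwa [sh_sh, inv_mul_cancel, sh_one] at this

open Classical in
/-- the type -/
noncomputable def typ (k : G3 → W) : Fin 4 :=
  if hasOdd k then (if hasEven k then 3 else 1) else (if hasEven k then 2 else 0)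

theorem typ_sh (k : G3 → W) (h : G3) : typ (sh h k) = typ k := by
  unfold typ
  rw [hasOdd_sh_iff, hasEven_sh_iff]

theorem typ_zero {k : G3 → W} (h : typ k = 0) : ¬ hasOdd k ∧ ¬ hasEven k := by
  unfold typ at h
  split_ifs at h with h1 h2 h2
  · exact absurd h (by decide)
  · exact absurd h (by decide)
  · exact absurd h (by decide)
  · exact ⟨h1, h2⟩

theorem typ_one {k : G3 → W} (h : typ k = 1) : hasOdd k ∧ ¬ hasEven k := by
  unfold typ at h
  split_ifs at h with h1 h2 h2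
  · exact absurd h (by decide)
  · exact ⟨h1, h2⟩
  · exact absurd h (by decide)
  · exact absurd h (by decide)

theorem typ_two {k : G3 → W} (h : typ k = 2) : ¬ hasOdd k ∧ hasEven k := by
  unfold typ at h
  split_ifs at h with h1 h2 h2
  · exact absurd h (by decide)
  · exact absurd h (by decide)
  · exact ⟨h1, h2⟩
  · exact absurd h (by decide)

theorem typ_three {k : G3 → W} (h : typ k = 3) : hasOdd k ∧ hasEven k := by
  unfold typ at h
  split_ifs at h with h1 h2 h2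
  · exact ⟨h1, h2⟩
  · exact absurd h (by decide)
  · exact absurd h (by decide)
  · exact absurd h (by decide)

/-- the polynomial `X ^ 2 + X + 1` annihilates all ratios -/
def hasOm (k : G3 → Set ℤ[X]) : Prop := ∀ g, (X ^ 2 + X + 1 : ℤ[X]) ∈ k g

theorem hasOm_sh_iff {k : G3 → Set ℤ[X]} (h : G3) : hasOm (sh h k) ↔ hasOm k := by
  constructor
  · intro hk g
    have h1 := hk (h * g)
    have e : sh h k (h * g) = k (h⁻¹ * (h * g)) := rfl
    rw [e, inv_mul_cancel_left] at h1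
    exact h1
  · intro hk g
    exact hk _

open Classical in
/-- the refined type -/
noncomputable def typ' (k : G3 → Set ℤ[X]) : Fin 4 := if hasOm k then 3 else typ k

theorem typ'_iff {k : G3 → Set ℤ[X]} {i : Fin 4} (hi : i ≠ 3) :
    typ' k = i ↔ (typ k = i ∧ ¬ hasOm k) := by
  unfold typ'
  split_ifs with h
  · constructor
    · intro h1
      exact absurd h1.symm hi
    · intro h1
      exact absurd h h1.2
  · exact ⟨fun h1 => ⟨h1, h⟩, fun h1 => h1.1⟩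

end types

section

variable {p : ℕ} [Fact p.Prime] {K N : Type} [Field K] [NumberField K] [Field N] [NumberField N]

/-- a set of primes which can be divided in `n` parts with the same sum of local degrees -/
def Bal (n : ℕ) (A : Set (Ideal (𝓞 K))) : Prop :=
  ∃ c : Ideal (𝓞 K) → Fin n, ∀ i j : Fin n,
    ∑ᶠ P ∈ {P | P ∈ A ∧ c P = i}, ldeg P = ∑ᶠ P ∈ {P | P ∈ A ∧ c P = j}, ldeg P

open Classical in
theorem finsum_eq (hp : p.Prime) (Φ : Ideal (𝓞 K) → Prop) :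
    ∑ᶠ P ∈ {P | P ∈ above p K ∧ Φ P}, ldeg P = ∑ P ∈ (aboveF hp K).filter Φ, ldeg P := by
  have e : {P : Ideal (𝓞 K) | P ∈ above p K ∧ Φ P} =
      (((aboveF hp K).filter Φ : Finset (Ideal (𝓞 K))) : Set (Ideal (𝓞 K))) := by
    ext P
    rw [Finset.coe_filter]
    show (P.IsPrime ∧ _) ∧ Φ P ↔ P ∈ aboveF hp K ∧ Φ P
    rw [mem_aboveF]
  rw [e, finsum_mem_coe_finset]

theorem exists_bal' (hcard : Nat.card (K →+* N) = Module.finrank ℚ K) (hp : p.Prime)
    (hpal : PalK p K) (Q : Ideal (𝓞 N)) (hQ : Q.IsPrime) (hQp : ((p : ℕ) : 𝓞 N) ∈ Q)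
    {L : Type} [Field L] [CharP L p] (ψ : 𝓞 N →+* L) (hψ : ∀ w, ψ w = 0 ↔ w ∈ Q)
    {x : Fin 3 → 𝓞 K} (hs : SolF p K x) (H : Subgroup G3) (Φ : (G3 → Set ℤ[X]) → Prop)
    (hst : ∀ h ∈ H, ∀ k, Φ k → Φ (sh h k)) (hfree : ∀ h ∈ H, ∀ k, Φ k → sh h k = k → h = 1)
    {n : ℕ} (e : H ≃ Fin n) : Bal n {P | P ∈ above p K ∧ Φ (kk x P)} := by
  classical
  obtain ⟨c, hc⟩ := exists_bal hcard hp hpal Q hQ hQp ψ hψ hs H {k | Φ k} hst hfree e
  refine ⟨c, fun i j => ?_⟩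
  have key : ∀ i : Fin n, ∑ᶠ P ∈ {P | P ∈ {P | P ∈ above p K ∧ Φ (kk x P)} ∧ c P = i}, ldeg P =
      ∑ P ∈ (aboveF hp K).filter (fun P => kk x P ∈ {k | Φ k} ∧ c P = i), ldeg P := by
    intro i
    have h1 := finsum_eq (K := K) hp (fun P => Φ (kk x P) ∧ c P = i)
    have e : {P | P ∈ {P | P ∈ above p K ∧ Φ (kk x P)} ∧ c P = i} =
        {P : Ideal (𝓞 K) | P ∈ above p K ∧ Φ (kk x P) ∧ c P = i} := by
      ext P
      exact and_assoc
    rw [e, h1]
    refine Finset.sum_congr ?_ fun _ _ => rfl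
    ext P
    simp only [Finset.mem_filter]
    rfl
  rw [key, key]
  exact hc i j

theorem bal_six (hcard : Nat.card (K →+* N) = Module.finrank ℚ K) (hp : p.Prime)
    (hpal : PalK p K) (Q : Ideal (𝓞 N)) (hQ : Q.IsPrime) (hQp : ((p : ℕ) : 𝓞 N) ∈ Q)
    {L : Type} [Field L] [CharP L p] (ψ : 𝓞 N →+* L) (hψ : ∀ w, ψ w = 0 ↔ w ∈ Q)
    {x : Fin 3 → 𝓞 K} (hs : SolF p K x) :
    Bal 6 {P : Ideal (𝓞 K) | P ∈ above p K ∧ typ' (kk x P) = 0} := by
  have hc : Nat.card (⊤ : Subgroup G3) = 6 := by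
    rw [Subgroup.card_top, Nat.card_perm, Nat.card_fin]
    rfl
  refine exists_bal' hcard hp hpal Q hQ hQp ψ hψ hs ⊤ (fun k => typ' k = 0) ?_ ?_
    (Finite.equivFinOfCardEq hc)
  · intro h _ k hk
    rw [typ'_iff (by decide)] at hk ⊢
    rw [typ_sh, hasOm_sh_iff]
    exact hk
  · intro h _ k hk h1
    obtain ⟨h2, h3⟩ := typ_zero ((typ'_iff (by decide)).1 hk).1
    by_contra h4
    rcases Int.units_eq_one_or (Equiv.Perm.sign h) with h5 | h5
    · exact h3 ⟨h, h5, h4, h1⟩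
    · exact h2 ⟨h, h5, h1⟩

theorem bal_three (hcard : Nat.card (K →+* N) = Module.finrank ℚ K) (hp : p.Prime)
    (hpal : PalK p K) (Q : Ideal (𝓞 N)) (hQ : Q.IsPrime) (hQp : ((p : ℕ) : 𝓞 N) ∈ Q)
    {L : Type} [Field L] [CharP L p] (ψ : 𝓞 N →+* L) (hψ : ∀ w, ψ w = 0 ↔ w ∈ Q)
    {x : Fin 3 → 𝓞 K} (hs : SolF p K x) :
    Bal 3 {P : Ideal (𝓞 K) | P ∈ above p K ∧ typ' (kk x P) = 1} := by
  have hc : Nat.card (alternatingGroup (Fin 3)) = 3 := by
    rw [nat_card_alternatingGroup, Nat.card_fin]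
    rfl
  refine exists_bal' hcard hp hpal Q hQ hQp ψ hψ hs (alternatingGroup (Fin 3))
    (fun k => typ' k = 1) ?_ ?_ (Finite.equivFinOfCardEq hc)
  · intro h _ k hk
    rw [typ'_iff (by decide)] at hk ⊢
    rw [typ_sh, hasOm_sh_iff]
    exact hk
  · intro h hh k hk h1
    obtain ⟨h2, h3⟩ := typ_one ((typ'_iff (by decide)).1 hk).1
    by_contra h4
    rw [Equiv.Perm.mem_alternatingGroup] at hh
    exact h3 ⟨h, hh, h4, h1⟩

theorem bal_two (hcard : Nat.card (K →+* N) = Module.finrank ℚ K) (hp : p.Prime)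
    (hpal : PalK p K) (Q : Ideal (𝓞 N)) (hQ : Q.IsPrime) (hQp : ((p : ℕ) : 𝓞 N) ∈ Q)
    {L : Type} [Field L] [CharP L p] (ψ : 𝓞 N →+* L) (hψ : ∀ w, ψ w = 0 ↔ w ∈ Q)
    {x : Fin 3 → 𝓞 K} (hs : SolF p K x) :
    Bal 2 {P : Ideal (𝓞 K) | P ∈ above p K ∧ typ' (kk x P) = 2} := by
  have hord : orderOf (Equiv.swap (0 : Fin 3) 1) = 2 :=
    orderOf_eq_prime (by decide) (by decide)
  have hc : Nat.card (Subgroup.zpowers (Equiv.swap (0 : Fin 3) 1)) = 2 := by
    rw [Nat.card_zpowers, hord]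
  refine exists_bal' hcard hp hpal Q hQ hQp ψ hψ hs (Subgroup.zpowers (Equiv.swap (0 : Fin 3) 1))
    (fun k => typ' k = 2) ?_ ?_ (Finite.equivFinOfCardEq hc)
  · intro h _ k hk
    rw [typ'_iff (by decide)] at hk ⊢
    rw [typ_sh, hasOm_sh_iff]
    exact hk
  · intro h hh k hk h1
    obtain ⟨h2, h3⟩ := typ_two ((typ'_iff (by decide)).1 hk).1
    by_contra h4
    apply h2
    refine ⟨h, ?_, h1⟩
    obtain ⟨m, hm⟩ := Subgroup.mem_zpowers_iff.1 hh
    rcases Int.even_or_odd' m with ⟨r, hr | hr⟩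
    · exfalso
      apply h4
      have e2 : (Equiv.swap (0 : Fin 3) 1) ^ (2 : ℤ) = 1 := by decide
      rw [← hm, hr, zpow_mul, e2, one_zpow]
    · have e2 : (Equiv.swap (0 : Fin 3) 1) ^ (2 : ℤ) = 1 := by decide
      rw [← hm, hr, zpow_add, zpow_mul, e2, one_zpow, one_mul, zpow_one]
      decide

theorem bal_om (hcard : Nat.card (K →+* N) = Module.finrank ℚ K) (hp : p.Prime)
    (hpal : PalK p K) (Q : Ideal (𝓞 N)) (hQ : Q.IsPrime) (hQp : ((p : ℕ) : 𝓞 N) ∈ Q)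
    {L : Type} [Field L] [CharP L p] (ψ : 𝓞 N →+* L) (hψ : ∀ w, ψ w = 0 ↔ w ∈ Q)
    {x : Fin 3 → 𝓞 K} (hs : SolF p K x) :
    Bal 2 {P : Ideal (𝓞 K) | P ∈ above p K ∧ (hasOm (kk x P) ∧ ¬ hasOdd (kk x P))} := by
  have hord : orderOf (Equiv.swap (0 : Fin 3) 1) = 2 :=
    orderOf_eq_prime (by decide) (by decide)
  have hc : Nat.card (Subgroup.zpowers (Equiv.swap (0 : Fin 3) 1)) = 2 := by
    rw [Nat.card_zpowers, hord]
  refine exists_bal' hcard hp hpal Q hQ hQp ψ hψ hs (Subgroup.zpowers (Equiv.swap (0 : Fin 3) 1))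
    (fun k => hasOm k ∧ ¬ hasOdd k) ?_ ?_ (Finite.equivFinOfCardEq hc)
  · intro h _ k hk
    rw [hasOm_sh_iff, hasOdd_sh_iff]
    exact hk
  · intro h hh k hk h1
    by_contra h4
    apply hk.2
    refine ⟨h, ?_, h1⟩
    obtain ⟨m, hm⟩ := Subgroup.mem_zpowers_iff.1 hh
    rcases Int.even_or_odd' m with ⟨r, hr | hr⟩
    · exfalso
      apply h4
      have e2 : (Equiv.swap (0 : Fin 3) 1) ^ (2 : ℤ) = 1 := by decide
      rw [← hm, hr, zpow_mul, e2, one_zpow]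
    · have e2 : (Equiv.swap (0 : Fin 3) 1) ^ (2 : ℤ) = 1 := by decide
      rw [← hm, hr, zpow_add, zpow_mul, e2, one_zpow, one_mul, zpow_one]
      decide

end

end Pool.Agent.W71.FS
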